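import Mathlib

namespace Pool.Agent.H.MP_f7d718_lc

open Set Function

theorem bf {M : Type} [Countable M] [Nonempty M] [DecidableEq M] (P : Finset (M × M) → Prop)
    (h0 : P ∅) (h1 : ∀ s, P s → ∀ x, ∃ y, P (insert (x, y) s))
    (h2 : ∀ s, P s → ∀ y, ∃ x, P (insert (x, y) s)) :
    ∃ R : M → M → Prop, (∀ x, ∃ y, R x y) ∧ (∀ y, ∃ x, R x y) ∧
      ∀ x y x' y', R x y → R x' y' → ∃ s, P s ∧ (x, y) ∈ s ∧ (x', y') ∈ s := by
  obtain ⟨e, he⟩ := exists_surjective_nat M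
  choose f hf using h1
  choose g hg using h2
  obtain ⟨s, hs⟩ : ∃ s : ℕ → {s // P s}, ∀ n, ∃ x y, (s (n + 1)).1 =
      insert (x, e n) (insert (e n, y) (s n).1) :=
    ⟨fun n => Nat.rec ⟨∅, h0⟩ (fun n t => ⟨_, hg _ (hf t.1 t.2 (e n)) (e n)⟩) n,
      fun n => ⟨_, _, rfl⟩⟩
  have mono : Monotone fun n => (s n).1 := monotone_nat_of_le_succ fun n => by
    obtain ⟨x, y, h⟩ := hs n
    rw [h]
    exact (Finset.subset_insert _ _).trans (Finset.subset_insert _ _)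
  refine ⟨fun x y => ∃ n, (x, y) ∈ (s n).1, fun x => ?_, fun y => ?_,
    fun x y x' y' ⟨n, a⟩ ⟨m, b⟩ =>
      ⟨_, (s (max n m)).2, mono (le_max_left _ _) a, mono (le_max_right _ _) b⟩⟩
  · obtain ⟨n, rfl⟩ := he x
    obtain ⟨x, y, h⟩ := hs n
    exact ⟨y, n + 1, by simp [h]⟩
  · obtain ⟨n, rfl⟩ := he y
    obtain ⟨x, y, h⟩ := hs n
    exact ⟨x, n + 1, by simp [h]⟩

theorem perm_ext {α ι : Type} [Finite α] (S : Set ι) (a b : ι → α)
    (h : ∀ p ∈ S, ∀ q ∈ S, a p = a q ↔ b p = b q) :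
    ∃ e : Equiv.Perm α, ∀ p ∈ S, e (a p) = b p := by
  choose c c1 c2 using fun v : a '' S => v.2
  obtain ⟨e, he⟩ := Equiv.Perm.exists_extending_pair (fun v : a '' S => v.1) (fun v => b (c v))
    Subtype.val_injective fun v w hh =>
      Subtype.ext ((c2 v).symm.trans (((h _ (c1 v) _ (c1 w)).2 hh).trans (c2 w)))
  exact ⟨e, fun p hp => (he ⟨_, p, hp, rfl⟩).trans ((h _ (c1 _) _ hp).1 (c2 ⟨_, p, hp, rfl⟩))⟩

theorem equiv_of {α β : Type} (ρ : α → β → Prop) (h1 : ∀ a, ∃ b, ρ a b) (h2 : ∀ b, ∃ a, ρ a b)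
    (h3 : ∀ a b a' b', ρ a b → ρ a' b' → (a = a' ↔ b = b')) : ∃ e : α ≃ β, ∀ a, ρ a (e a) := by
  choose f hf using h1
  refine ⟨Equiv.ofBijective f ⟨fun a a' h => (h3 _ _ _ _ (hf a) (hf a')).2 h, fun b => ?_⟩, hf⟩
  obtain ⟨a, ha⟩ := h2 b
  exact ⟨a, (h3 _ _ _ _ (hf a) ha).1 rfl⟩

variable (I : Type) [Countable I] [Nonempty I]

/-- an enumeration of requirements -/
noncomputable def dec : ℕ → List ℕ × I × ℕ := (exists_surjective_nat (List ℕ × I × ℕ)).choose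

theorem dec_surj : Surjective (dec I) := (exists_surjective_nat (List ℕ × I × ℕ)).choose_spec

/-- the class of a point -/
noncomputable def cl (m : ℕ) : I := (dec I m).2.1

/-- the points -/
noncomputable def pt (m n : ℕ) : Fin (n + 3) :=
  Fin.ofNat (n + 3) (if m ≤ n then m else (dec I m).1.getD n (n + 1))

theorem pt_val {m n : ℕ} (h : m ≤ n) : (pt I m n).val = m := by
  simp only [pt, h, if_true, Fin.val_ofNat]
  exact Nat.mod_eq_of_lt (by omega)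

theorem pt_inj {m l : ℕ} (h : ∀ n, pt I m n = pt I l n) : m = l := by
  rw [← pt_val I (le_max_left m l), h, pt_val I (le_max_right m l)]

theorem ext (F : Finset ℕ) (N : ℕ) (t : ∀ n, Fin (n + 3)) (j : I) (hF : F.card ≤ N + 2) :
    ∃ m, cl I m = j ∧ (∀ n < N, pt I m n = t n) ∧ ∀ u ∈ F, ∀ n, N ≤ n → pt I m n ≠ pt I u n := by
  classical
  have : ∀ n, ∃ v : Fin (n + 3), (n < N → v = t n) ∧ (N ≤ n → ∀ u ∈ F, v ≠ pt I u n) := fun n => by
    by_cases h : n < N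
    · exact ⟨t n, fun _ => rfl, fun h2 => absurd h (not_lt.2 h2)⟩
    · obtain ⟨v, -, hv⟩ := Finset.exists_mem_notMem_of_card_lt_card
        (s := F.image fun u => pt I u n) (t := Finset.univ)
        (Finset.card_image_le.trans_lt (by simp; omega))
      exact ⟨v, fun h2 => absurd h2 h, fun _ u hu e => hv (Finset.mem_image.2 ⟨u, hu, e.symm⟩)⟩
  choose v v1 v2 using this
  obtain ⟨L, L1, L2⟩ : ∃ L, N ≤ L ∧ ∀ u ∈ F, u ≤ L :=
    ⟨max N (F.sup id), le_max_left _ _, fun u hu => (Finset.le_sup (f := id) hu).trans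
      (le_max_right _ _)⟩
  choose c hc using fun k : ℕ => dec_surj I ((List.range L).map fun n => (v n).val, j, k)
  obtain ⟨_, ⟨k, rfl⟩, hk⟩ := (infinite_range_of_injective (f := c) fun k l h => by
    have := (hc k).symm.trans ((congrArg _ h).trans (hc l))
    simpa using this).exists_gt L
  have e1 : ∀ n < L, pt I (c k) n = v n := fun n hn => by
    apply Fin.ext
    rw [pt, if_neg (by omega), hc, List.getD_eq_getElem _ _ (by simpa using hn), List.getElem_map,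
      List.getElem_range, Fin.val_ofNat, Nat.mod_eq_of_lt (v n).2]
  refine ⟨c k, by rw [cl, hc], fun n hn => (e1 n (by omega)).trans (v1 n hn), fun u hu n hn => ?_⟩
  by_cases h : n < L
  · rw [e1 n h]
    exact v2 n hn u hu
  · have := L2 u hu
    intro e
    have e2 := congrArg Fin.val e
    rw [pt_val I (m := u) (by omega)] at e2
    by_cases h2 : c k ≤ n
    · rw [pt_val I h2] at e2
      omega
    · rw [pt, if_neg h2, hc, List.getD_eq_default _ _ (by simpa using h), Fin.val_ofNat,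
        Nat.mod_eq_of_lt (by omega)] at e2
      omega

theorem forth (s : Finset (ℕ × ℕ)) (f g : ℕ × ℕ → ℕ)
    (h : ∀ p ∈ s, ∀ q ∈ s, ∀ n, pt I (f p) n = pt I (f q) n ↔ pt I (g p) n = pt I (g q) n)
    (m : ℕ) (hm : ∀ p ∈ s, f p ≠ m) (j : I) :
    ∃ l, cl I l = j ∧ ∀ p ∈ s, ∀ n, (pt I m n = pt I (f p) n ↔ pt I l n = pt I (g p) n) := by
  choose κ hκ using fun n => perm_ext (s : Set (ℕ × ℕ)) (fun p => pt I (f p) n)
    (fun p => pt I (g p) n) fun p hp q hq => h p hp q hq n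
  obtain ⟨l, l1, l2, l3⟩ := ext I (s.image g) (s.card + m + s.sup f) (fun n => κ n (pt I m n)) j
    (Finset.card_image_le.trans (by omega))
  refine ⟨l, l1, fun p hp n => ?_⟩
  by_cases hn : n < s.card + m + s.sup f
  · rw [l2 n hn, ← hκ n p hp, (κ n).apply_eq_iff_eq]
  · refine iff_of_false (fun e => hm p hp ?_)
      (l3 _ (Finset.mem_image_of_mem g hp) n (not_lt.1 hn))
    have := Finset.le_sup (f := f) hp
    rw [← pt_val I (m := m) (n := n) (by omega), e, pt_val I (by omega)]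

theorem lift (σ : I ≃ I) : ∃ (π : ℕ ≃ ℕ) (k : ∀ n, Equiv.Perm (Fin (n + 3))),
    (∀ m, cl I (π m) = σ (cl I m)) ∧ ∀ m n, k n (pt I m n) = pt I (π m) n := by
  obtain ⟨R, r1, r2, r3⟩ := bf (fun s : Finset (ℕ × ℕ) => ∀ p ∈ s, cl I p.2 = σ (cl I p.1) ∧
    ∀ q ∈ s, ∀ n, pt I p.1 n = pt I q.1 n ↔ pt I p.2 n = pt I q.2 n) (by simp)
    (fun s hs x => by
      by_cases h : ∃ y, (x, y) ∈ s
      · obtain ⟨y, hy⟩ := h
        exact ⟨y, by rwa [Finset.insert_eq_of_mem hy]⟩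
      · obtain ⟨l, l1, l2⟩ := forth I s Prod.fst Prod.snd (fun p hp => (hs p hp).2) x
          (fun p hp e => h ⟨p.2, e ▸ hp⟩) (σ (cl I x))
        refine ⟨l, ?_⟩
        simp only [Finset.forall_mem_insert]
        exact ⟨⟨l1, by simp, l2⟩, fun p hp => ⟨(hs p hp).1, fun n => by
          rw [eq_comm, l2 p hp, eq_comm], (hs p hp).2⟩⟩)
    (fun s hs y => by
      by_cases h : ∃ x, (x, y) ∈ s
      · obtain ⟨x, hx⟩ := h
        exact ⟨x, by rwa [Finset.insert_eq_of_mem hx]⟩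
      · obtain ⟨l, l1, l2⟩ := forth I s Prod.snd Prod.fst
          (fun p hp q hq n => ((hs p hp).2 q hq n).symm) y
          (fun p hp e => h ⟨p.1, e ▸ hp⟩) (σ.symm (cl I y))
        refine ⟨l, ?_⟩
        simp only [Finset.forall_mem_insert]
        exact ⟨⟨by simp [l1], by simp, fun p hp n => (l2 p hp n).symm⟩,
          fun p hp => ⟨(hs p hp).1, fun n => by
            rw [eq_comm, ← l2 p hp, eq_comm], (hs p hp).2⟩⟩)
  have k : ∀ x y x' y', R x y → R x' y' → ∀ n, pt I x n = pt I x' n ↔ pt I y n = pt I y' n :=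
    fun x y x' y' a b => by
      obtain ⟨s, hs, c, d⟩ := r3 _ _ _ _ a b
      exact (hs _ c).2 _ d
  obtain ⟨π, hπ⟩ := equiv_of R r1 r2 fun x y x' y' a b =>
    ⟨fun e => pt_inj I fun n => (k _ _ _ _ a b n).1 (by rw [e]),
      fun e => pt_inj I fun n => (k _ _ _ _ a b n).2 (by rw [e])⟩
  choose κ hκ using fun n => perm_ext univ (fun m => pt I m n) (fun m => pt I (π m) n)
    fun p _ q _ => k _ _ _ _ (hπ p) (hπ q) n
  refine ⟨π, κ, fun m => ?_, fun m n => hκ n m trivial⟩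
  obtain ⟨s, hs, c, -⟩ := r3 _ _ _ _ (hπ m) (hπ m)
  exact (hs _ c).1

/-- everywhere different -/
def ed (m l : ℕ) : Prop := ∀ n, pt I m n ≠ pt I l n

theorem ed2 (m l : ℕ) (j : I) : ∃ u, cl I u = j ∧ ed I u m ∧ ed I u l := by
  obtain ⟨u, h1, -, h2⟩ := ext I {m, l} 0 (fun _ => 0) j Finset.card_le_two
  exact ⟨u, h1, fun n => h2 m (by simp) n n.zero_le, fun n => h2 l (by simp) n n.zero_le⟩

theorem ed_symm {m l : ℕ} (h : ed I m l) : ed I l m := fun n => (h n).symm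

variable {I}

theorem twin {R R' : I → I → Prop} {π : ℕ ≃ ℕ} (h1 : ∀ m l, ed I (π m) (π l) → ed I m l)
    (h2 : ∀ m l, ed I m l → (R (cl I m) (cl I l) ↔ R' (cl I (π m)) (cl I (π l))))
    (tw : ∀ i i', (∀ j, (R' i j ↔ R' i' j) ∧ (R' j i ↔ R' j i')) → i = i') {m l : ℕ}
    (h : cl I m = cl I l) : cl I (π m) = cl I (π l) := by
  refine tw _ _ fun j => ?_
  obtain ⟨u, rfl, u1, u2⟩ := ed2 I (π m) (π l) j
  obtain ⟨u, rfl⟩ := π.surjective u
  rw [← h2 _ _ (h1 _ _ u1), ← h2 _ _ (h1 _ _ u2), ← h2 _ _ (ed_symm I (h1 _ _ u1)),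
    ← h2 _ _ (ed_symm I (h1 _ _ u2)), h]
  simp

theorem recover {R R' : I → I → Prop} (k : ∀ n, Equiv.Perm (Fin (n + 3)))
    (tot : ∀ i, ∃ j, R i j ∨ R j i) (tot' : ∀ i, ∃ j, R' i j ∨ R' j i)
    (tw : ∀ i i', (∀ j, (R i j ↔ R i' j) ∧ (R j i ↔ R j i')) → i = i')
    (tw' : ∀ i i', (∀ j, (R' i j ↔ R' i' j) ∧ (R' j i ↔ R' j i')) → i = i')
    (h1 : ∀ m m', ed I m m' → R (cl I m) (cl I m') → ∃ l l', R' (cl I l) (cl I l') ∧
      (∀ n, k n (pt I l n) = pt I m n) ∧ ∀ n, k n (pt I l' n) = pt I m' n)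
    (h2 : ∀ l l', ed I l l' → R' (cl I l) (cl I l') → ∃ m m', R (cl I m) (cl I m') ∧
      (∀ n, k n (pt I l n) = pt I m n) ∧ ∀ n, k n (pt I l' n) = pt I m' n) :
    ∃ σ : I ≃ I, ∀ i j, R i j ↔ R' (σ i) (σ j) := by
  have u : ∀ m l m' l', (∀ n, k n (pt I l n) = pt I m n) → (∀ n, k n (pt I l' n) = pt I m' n) →
      ∀ n, pt I m n = pt I m' n ↔ pt I l n = pt I l' n := fun m l m' l' a b n => by
    rw [← a, ← b, (k n).apply_eq_iff_eq]
  have u2 : ∀ m l m' l', (∀ n, k n (pt I l n) = pt I m n) → (∀ n, k n (pt I l' n) = pt I m' n) →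
      (m = m' ↔ l = l') := fun m l m' l' a b =>
    ⟨fun e => pt_inj I fun n => (u _ _ _ _ a b n).1 (by rw [e]),
      fun e => pt_inj I fun n => (u _ _ _ _ a b n).2 (by rw [e])⟩
  obtain ⟨π, hπ⟩ := equiv_of (fun m l => ∀ n, k n (pt I l n) = pt I m n) (fun m => by
    obtain ⟨j, hj⟩ := tot (cl I m)
    obtain ⟨v, rfl, v1, -⟩ := ed2 I m m j
    rcases hj with hj | hj
    · obtain ⟨l, -, -, a, -⟩ := h1 _ _ (ed_symm I v1) hj
      exact ⟨l, a⟩
    · obtain ⟨-, l, -, -, a⟩ := h1 _ _ v1 hj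
      exact ⟨l, a⟩) (fun m => by
    obtain ⟨j, hj⟩ := tot' (cl I m)
    obtain ⟨v, rfl, v1, -⟩ := ed2 I m m j
    rcases hj with hj | hj
    · obtain ⟨l, -, -, a, -⟩ := h2 _ _ (ed_symm I v1) hj
      exact ⟨l, a⟩
    · obtain ⟨-, l, -, -, a⟩ := h2 _ _ v1 hj
      exact ⟨l, a⟩) u2
  have e1 : ∀ m l, ed I m l ↔ ed I (π m) (π l) := fun m l =>
    forall_congr' fun n => (u _ _ _ _ (hπ m) (hπ l) n).not
  have e2 : ∀ m l, ed I m l → (R (cl I m) (cl I l) ↔ R' (cl I (π m)) (cl I (π l))) :=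
    fun m l h => by
    constructor
    · intro r
      obtain ⟨a, b, c, d, e⟩ := h1 _ _ h r
      rwa [(u2 _ _ _ _ (hπ m) d).1 rfl, (u2 _ _ _ _ (hπ l) e).1 rfl]
    · intro r
      obtain ⟨a, b, c, d, e⟩ := h2 _ _ ((e1 _ _).1 h) r
      rwa [(u2 _ _ _ _ (hπ m) d).2 rfl, (u2 _ _ _ _ (hπ l) e).2 rfl]
  obtain ⟨σ, hσ⟩ := equiv_of (fun i j => ∃ m, cl I m = i ∧ cl I (π m) = j)
    (fun i => by
      obtain ⟨v, h, -⟩ := ed2 I 0 0 i
      exact ⟨_, v, h, rfl⟩)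
    (fun i => by
      obtain ⟨v, h, -⟩ := ed2 I 0 0 i
      exact ⟨_, π.symm v, rfl, by simpa using h⟩) (by
      rintro _ _ _ _ ⟨m, rfl, rfl⟩ ⟨l, rfl, rfl⟩
      refine ⟨twin (fun m l => (e1 m l).2) e2 tw', fun h => ?_⟩
      simpa using twin (R := R') (R' := R) (π := π.symm)
        (fun m l h => by simpa using (e1 _ _).1 h)
        (fun m l h => by
          rw [e2 _ _ ((e1 _ _).2 (by simpa using h))]
          simp) tw h)
  refine ⟨σ, fun i j => ?_⟩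
  obtain ⟨m, rfl, hm⟩ := hσ i
  obtain ⟨l, rfl, v, -⟩ := ed2 I m m j
  obtain ⟨l', a, b⟩ := hσ (cl I l)
  rw [← hm, ← b, twin (fun m l => (e1 m l).2) e2 tw' a]
  exact e2 _ _ (ed_symm I v)

end Pool.Agent.H.MP_f7d718_lc
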