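import Mathlib

namespace Pool.Agent.H.MP_f7d718_lc

open Set Function Filter Topology

/-- divisibility by a power of two -/
def dv (j : ℕ) (w : ℤ_[2]) : Prop := ((2 : ℕ) : ℤ_[2]) ^ j ∣ w

/-- exact level -/
def lvl (j : ℕ) (w : ℤ_[2]) : Prop := dv j w ∧ ¬ dv (j + 1) w

theorem dv_iff (j : ℕ) (w : ℤ_[2]) : dv j w ↔ ‖w‖ ≤ ((2 : ℕ) : ℝ) ^ (-j : ℤ) := by
  rw [PadicInt.norm_le_pow_iff_mem_span_pow, Ideal.mem_span_singleton, dv]

theorem dv_clopen (j : ℕ) : IsClopen {w | dv j w} := by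
  have := IsUltrametricDist.isClopen_closedBall (0 : ℤ_[2]) (r := ((2 : ℕ) : ℝ) ^ (-j : ℤ))
    (by positivity)
  simpa only [Metric.closedBall, dist_zero_right, ← dv_iff] using this

theorem lvl_clopen (j : ℕ) : IsClopen {w | lvl j w} := (dv_clopen j).inter (dv_clopen _).compl

theorem lvl_ex {w : ℤ_[2]} (h : w ≠ 0) : ∃ j, lvl j w := by
  by_contra hn
  obtain ⟨k, hk⟩ := PadicInt.exists_pow_neg_lt 2 (norm_pos_iff.2 h)
  refine absurd ((dv_iff k w).1 ?_) (not_le.2 hk)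
  clear hk
  induction k with
  | zero => simp [dv]
  | succ k ih => exact by_contra fun hh => hn ⟨k, ih, hh⟩

theorem lvl_le {i j : ℕ} {w : ℤ_[2]} (h : lvl j w) (hi : dv i w) : i ≤ j :=
  by_contra fun hh => h.2 ((pow_dvd_pow _ (by omega)).trans hi)

theorem lvl_ne {j : ℕ} {w : ℤ_[2]} (h : lvl j w) : w ≠ 0 := fun e => h.2 (e ▸ dvd_zero _)

theorem dv_int (j : ℕ) (n : ℤ) : dv j n ↔ 2 ^ j ∣ n := PadicInt.pow_p_dvd_int_iff j n

theorem lvl_pow (j : ℕ) : lvl j ((2 ^ j : ℤ) : ℤ_[2]) ∧ lvl j ((-2 ^ j : ℤ) : ℤ_[2]) := by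
  simp only [lvl, dv_int, dvd_neg, dvd_refl, true_and, and_self]
  intro h
  have := Int.le_of_dvd (by positivity) h
  rw [pow_succ] at this
  linarith [pow_pos (two_pos (α := ℤ)) j]

theorem lvl_sub {j : ℕ} {n : ℤ} (h0 : 0 < n) (h1 : n < 2 ^ j) :
    ∃ l, lvl l (n : ℤ_[2]) ∧ lvl l ((n - 2 ^ j : ℤ) : ℤ_[2]) := by
  obtain ⟨l, hl⟩ := lvl_ex (w := (n : ℤ_[2])) (by exact_mod_cast h0.ne')
  have : l + 1 ≤ j := by
    by_contra hh
    exact absurd (Int.le_of_dvd h0 ((pow_dvd_pow _ (by omega)).trans ((dv_int _ _).1 hl.1)))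
      (not_le.2 h1)
  refine ⟨l, hl, ?_⟩
  simp only [lvl, dv_int] at hl ⊢
  exact ⟨hl.1.sub (pow_dvd_pow _ (by omega)), fun h => hl.2 (by
    simpa using h.add (pow_dvd_pow 2 this))⟩

theorem pow_lim : Tendsto (fun j : ℕ => ((2 ^ j : ℤ) : ℤ_[2])) atTop (𝓝 0) := by
  have := tendsto_pow_atTop_nhds_zero_of_norm_lt_one (x := ((2 : ℕ) : ℤ_[2]))
    (by rw [PadicInt.norm_p]; norm_num)
  simpa using this

theorem cl_all {X ι : Type} [TopologicalSpace X] {p : X → ι → Prop}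
    (h : ∀ i, IsClosed {x | p x i}) : IsClosed {x | ∀ i, p x i} := by
  rw [ofPred_forall]
  exact isClosed_iInter h

variable {K P : Type} [Group K] (a : ℕ → K × Bool) (U : ℕ → P → Set K)

/-- the ambient space -/
abbrev W (K P : Type) : Type := ℤ → ℤ_[2] × K × (P → Bool)

/-- the system -/
def XX (R : P → Prop) : Set (W K P) := {x | ∀ n, (x (n + 1)).1 = (x n).1 + 1 ∧
  (∀ j, lvl j (x n).1 → (x (n + 1)).2.1 = (a j).1 * (x n).2.1 ∧
    ∀ z, ((x n).2.2 z = true ↔ (a j).2 = true ∧ R z ∧ (x n).2.1 ∈ U j z)) ∧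
  ∀ z, (x n).2.2 z = true → R z ∧ ∀ i, dv i (x n).1 → (x n).2.1 ∈ U i z}

/-- the shifts -/
def sh (m : ℤ) (x : W K P) : W K P := fun n => x (n + m)

variable {a U} {R R' : P → Prop}

theorem sh_mem {x : W K P} (hx : x ∈ XX a U R) (m : ℤ) : sh m x ∈ XX a U R := fun n => by
  simp only [sh, add_right_comm n 1 m]
  exact hx (n + m)

omit [Group K] in
theorem sh_sh (m l : ℤ) (x : W K P) : sh m (sh l x) = sh (m + l) x :=
  funext fun n => by simp only [sh, add_assoc]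

omit [Group K] in
theorem sh_zero (x : W K P) : sh 0 x = x := funext fun n => by simp only [sh, add_zero]

theorem om {x : W K P} (hx : x ∈ XX a U R) (n : ℤ) : (x n).1 = (x 0).1 + n := by
  induction n using Int.induction_on with
  | zero => simp
  | succ n ih => rw [(hx n).1, ih]; push_cast; ring
  | pred n ih =>
    have := (hx (-n - 1)).1
    rw [sub_add_cancel, ih] at this
    push_cast at this ⊢
    linear_combination -this

theorem cocycle (c : ℤ → K) (g : K) : ∃ G : ℤ → K, G 0 = g ∧ ∀ n, G (n + 1) = c n * G n := by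
  obtain ⟨u, u0, hu⟩ : ∃ u : ℕ → K, u 0 = g ∧ ∀ n, u (n + 1) = c n * u n :=
    ⟨fun n => Nat.rec g (fun n v => c n * v) n, rfl, fun _ => rfl⟩
  obtain ⟨v, v0, hv⟩ : ∃ v : ℕ → K, v 0 = g ∧ ∀ n, v (n + 1) = (c (Int.negSucc n))⁻¹ * v n :=
    ⟨fun n => Nat.rec g (fun n v => (c (Int.negSucc n))⁻¹ * v) n, rfl, fun _ => rfl⟩
  refine ⟨fun n => match n with
    | .ofNat n => u n
    | .negSucc n => v (n + 1), u0, fun n => ?_⟩
  rcases n with n | _ | n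
  · exact hu n
  · show u 0 = _ * v 1
    simp [u0, hv, v0]
  · show v (n + 1) = _ * v (n + 1 + 1)
    rw [hv (n + 1), mul_inv_cancel_left]

theorem ex_pt (hU : ∀ z, Antitone fun j => U j z) (w : ℤ_[2]) (g α : K) (ε : Prop) :
    ∃ x ∈ XX a U R, (x 0).1 = w ∧ (x 0).2.1 = g ∧ (w = 0 → (x 1).2.1 = α * g ∧
      ∀ z, ((x 0).2.2 z = true ↔ ε ∧ R z ∧ ∀ i, g ∈ U i z)) ∧
      ∀ n z, (x n).1 = 0 → ((x n).2.2 z = true ↔ ε ∧ R z ∧ ∀ i, (x n).2.1 ∈ U i z) := by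
  classical
  choose! v hv using fun w => lvl_ex (w := w)
  have hv2 : ∀ j w, lvl j w → v w = j := fun j w h =>
    le_antisymm (lvl_le h (hv w (lvl_ne h)).1) (lvl_le (hv w (lvl_ne h)) h.1)
  obtain ⟨G, G0, hG⟩ := cocycle (fun n => if w + n = 0 then α else (a (v (w + n))).1) g
  refine ⟨fun n => (w + n, G n, fun z => decide (if w + n = 0 then ε ∧ R z ∧ ∀ i, G n ∈ U i z else
    (a (v (w + n))).2 = true ∧ R z ∧ G n ∈ U (v (w + n)) z)), fun n => ⟨by push_cast; ring,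
      fun j hj => ⟨by simp only [hG, if_neg (lvl_ne hj), hv2 j _ hj], fun z => by
        simp only [if_neg (lvl_ne hj), hv2 j _ hj, decide_eq_true_iff]⟩, fun z hz => ?_⟩,
      by simp, G0, fun h => ⟨by simpa [h, G0] using hG 0, fun z => by simp [h, G0]⟩,
      fun n z h => by simp only at h; simp [h]⟩
  simp only [decide_eq_true_iff] at hz
  split_ifs at hz with h
  · exact ⟨hz.2.1, fun i _ => hz.2.2 i⟩
  · exact ⟨hz.2.1, fun i hi => hU z (lvl_le (hv _ h) hi) hz.2.2⟩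

theorem cmp {x y : W K P} (hx : x ∈ XX a U R) (hy : y ∈ XX a U R') (s t : ℤ) (L : ℕ)
    (h : ∀ i : ℕ, i < L → ∃ j, lvl j (x (s + i)).1 ∧ lvl j (y (t + i)).1) :
    ((x (s + L)).2.1)⁻¹ * (y (t + L)).2.1 = ((x s).2.1)⁻¹ * (y t).2.1 := by
  induction L with
  | zero => simp
  | succ L ih =>
    obtain ⟨j, h1, h2⟩ := h L (Nat.lt_succ_self L)
    rw [← ih fun i hi => h i (by omega), Nat.cast_succ, ← add_assoc, ← add_assoc,
      (((hx _).2.1 j h1).1), (((hy _).2.1 j h2).1)]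
    group

theorem cst {x y : W K P} (hx : x ∈ XX a U R) (hy : y ∈ XX a U R') (h0 : (x 0).1 = (y 0).1)
    {s t : ℤ} (hst : s ≤ t) (h : ∀ n, s ≤ n → n < t → (x n).1 ≠ 0) :
    ((x t).2.1)⁻¹ * (y t).2.1 = ((x s).2.1)⁻¹ * (y s).2.1 := by
  obtain ⟨L, rfl⟩ := Int.le.dest hst
  refine cmp hx hy s s L fun i hi => ?_
  obtain ⟨j, hj⟩ := lvl_ex (h (s + i) (by omega) (by omega))
  exact ⟨j, hj, by rwa [om hy, ← h0, ← om hx]⟩

theorem hole_ne {x : W K P} (hx : x ∈ XX a U R) (h0 : (x 0).1 = 0) {n : ℤ} (hn : n ≠ 0) :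
    (x n).1 ≠ 0 := by
  rw [om hx, h0, zero_add]
  exact_mod_cast hn

theorem geq {x y : W K P} (hx : x ∈ XX a U R) (hy : y ∈ XX a U R') (h0 : (x 0).1 = (y 0).1)
    (h : ∀ n, n ≠ 0 → (x n).1 ≠ 0) (e0 : (x 0).2.1 = (y 0).2.1) (e1 : (x 1).2.1 = (y 1).2.1)
    (n : ℤ) : (x n).2.1 = (y n).2.1 := by
  rw [← inv_mul_eq_one]
  rcases le_or_gt n 0 with hn | hn
  · rw [← cst hx hy h0 hn fun m _ h2 => h m h2.ne, e0, inv_mul_cancel]
  · rw [cst hx hy h0 (show 1 ≤ n from hn) fun m h2 _ => h m (by omega), e1, inv_mul_cancel]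

theorem peq {x y : W K P} (hx : x ∈ XX a U R) (hy : y ∈ XX a U R) (h0 : (x 0).1 = (y 0).1)
    (h : ∀ n, (x n).2.1 = (y n).2.1) {n : ℤ} (hn : (x n).1 ≠ 0) : x n = y n := by
  have e : (x n).1 = (y n).1 := by rw [om hx, om hy, h0]
  obtain ⟨j, hj⟩ := lvl_ex hn
  refine Prod.ext e (Prod.ext (h n) (funext fun z => Bool.eq_iff_iff.2 ?_))
  rw [((hx n).2.1 j hj).2, ((hy n).2.1 j (e ▸ hj)).2, h]

variable [TopologicalSpace K] [IsTopologicalGroup K] [CompactSpace K] [T2Space K]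

omit [CompactSpace K] in
theorem closed {Y : Type} [TopologicalSpace Y] {R : Y → P → Prop} (hU : ∀ j z, IsClopen (U j z))
    (hR : ∀ z, IsClopen {y | R y z}) : IsClosed {p : Y × W K P | p.2 ∈ XX a U (R p.1)} := by
  have c1 : ∀ n z, IsClopen {p : Y × W K P | (p.2 n).2.2 z = true} := fun n z =>
    (isClopen_discrete {true}).preimage (f := fun p : Y × W K P => (p.2 n).2.2 z) (by fun_prop)
  have c2 : ∀ z, IsClopen {p : Y × W K P | R p.1 z} := fun z => (hR z).preimage continuous_fst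
  have c3 : ∀ n j z, IsClopen {p : Y × W K P | (p.2 n).2.1 ∈ U j z} := fun n j z =>
    (hU j z).preimage (f := fun p : Y × W K P => (p.2 n).2.1) (by fun_prop)
  have c4 : ∀ n j z, IsClopen {p : Y × W K P | (a j).2 = true ∧ R p.1 z ∧ (p.2 n).2.1 ∈ U j z} :=
    fun n j z => IsClopen.inter ⟨isClosed_const, isOpen_const⟩ ((c2 z).inter (c3 n j z))
  simp only [XX, mem_ofPred_eq, iff_iff_implies_and_implies]
  exact cl_all fun n => (isClosed_eq (by fun_prop) (by fun_prop)).inter (IsClosed.inter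
    (cl_all fun j => isClosed_imp ((lvl_clopen j).isOpen.preimage
      (f := fun p : Y × W K P => (p.2 n).1) (by fun_prop))
      ((isClosed_eq (by fun_prop) (by fun_prop)).inter (cl_all fun z =>
        (isClosed_imp (c1 n z).isOpen (c4 n j z).isClosed).inter
          (isClosed_imp (c4 n j z).isOpen (c1 n z).isClosed))))
    (cl_all fun z => isClosed_imp (c1 n z).isOpen ((c2 z).isClosed.inter (cl_all fun i =>
      isClosed_imp ((dv_clopen i).isOpen.preimage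
        (f := fun p : Y × W K P => (p.2 n).1) (by fun_prop)) (c3 n i z).isClosed))))

omit [CompactSpace K] in
theorem closed1 (hU : ∀ j z, IsClopen (U j z)) : IsClosed (XX a U R) :=
  (closed (a := a) (Y := Unit) (R := fun _ => R) hU fun _ => ⟨isClosed_const, isOpen_const⟩).preimage
    (f := fun x => ((), x)) (by fun_prop)

omit [Group K] [IsTopologicalGroup K] [CompactSpace K] [T2Space K] in
theorem sh_cont (m : ℤ) : Continuous (sh m : W K P → W K P) :=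
  continuous_pi fun _ => continuous_apply _

theorem lim (hU : ∀ z, Antitone fun j => U j z) {β : K × Bool} (hβ : MapClusterPt β atTop a) :
    ∃ (𝒰 : Ultrafilter ℕ) (Q : K), ∀ (R : P → Prop), ∀ x ∈ XX a U R, (x 0).1 = 0 → ∀ y : W K P,
      (Tendsto (fun j : ℕ => sh (2 ^ j) x) 𝒰 (𝓝 y) → (y 0).1 = 0 ∧ (y 0).2.1 = Q * (x 1).2.1 ∧
        (y 1).2.1 = β.1 * (Q * (x 1).2.1)) ∧
      (Tendsto (fun j : ℕ => sh (-2 ^ j) x) 𝒰 (𝓝 y) → (y 0).1 = 0 ∧
        (y 0).2.1 = β.1⁻¹ * (Q⁻¹ * (x 0).2.1) ∧ (y 1).2.1 = Q⁻¹ * (x 0).2.1) := by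
  obtain ⟨𝒰, h1, h2⟩ := mapClusterPt_iff_ultrafilter.1 hβ
  obtain ⟨u, hu, u0, -⟩ := ex_pt (a := a) (R := fun _ => True) hU 0 1 1 True
  obtain ⟨Q, -, hQ⟩ := isCompact_univ.ultrafilter_le_nhds
    (𝒰.map fun j : ℕ => (u (2 ^ j)).2.1 * ((u 1).2.1)⁻¹) (by simp)
  have hQ' : Tendsto (fun j : ℕ => (u (2 ^ j)).2.1 * ((u 1).2.1)⁻¹) 𝒰 (𝓝 Q) := hQ
  have h3 := (continuous_fst.tendsto _).comp h2
  refine ⟨𝒰, Q, fun R x hx x0 y => ?_⟩
  have cj : ∀ j : ℕ, ((2 ^ j - 1 : ℕ) : ℤ) = 2 ^ j - 1 := fun j => by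
    rw [Nat.cast_sub Nat.one_le_two_pow]
    simp
  have ox : ∀ n, (x n).1 = n := fun n => by rw [om hx, x0, zero_add]
  have ou : ∀ n, (u n).1 = n := fun n => by rw [om hu, u0, zero_add]
  have lt : ∀ j i : ℕ, i < 2 ^ j - 1 → (1 + i : ℤ) < 2 ^ j := fun j i hi => by
    have : (i : ℤ) < ((2 ^ j - 1 : ℕ) : ℤ) := by exact_mod_cast hi
    rw [cj] at this
    omega
  have e1 : ∀ j : ℕ, (x (0 + 2 ^ j)).2.1 = (u (2 ^ j)).2.1 * ((u 1).2.1)⁻¹ * (x 1).2.1 :=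
    fun j => by
    have := cmp hu hx 1 1 (2 ^ j - 1) fun i hi => by
      obtain ⟨l, hl, -⟩ := lvl_sub (n := 1 + i) (by omega) (lt j i hi)
      exact ⟨l, by rwa [ou], by rwa [ox]⟩
    rw [cj, add_sub_cancel] at this
    rw [mul_assoc, ← this, zero_add, mul_inv_cancel_left]
  have e2 : ∀ j : ℕ, (x (1 + -2 ^ j)).2.1 =
      ((u (2 ^ j)).2.1 * ((u 1).2.1)⁻¹)⁻¹ * (x 0).2.1 := fun j => by
    have := cmp hu hx 1 (1 + -2 ^ j) (2 ^ j - 1) fun i hi => by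
      obtain ⟨l, hl, h2⟩ := lvl_sub (n := 1 + i) (by omega) (lt j i hi)
      exact ⟨l, by rwa [ou], by rwa [ox, show (1 + -2 ^ j + i : ℤ) = 1 + i - 2 ^ j by ring]⟩
    rw [cj, add_sub_cancel, show (1 + -2 ^ j + (2 ^ j - 1) : ℤ) = 0 by ring] at this
    rw [mul_inv_rev, inv_inv, mul_assoc, this, mul_inv_cancel_left]
  have t1 : ∀ {f : ℕ → W K P}, Tendsto f 𝒰 (𝓝 y) → ∀ n,
      Tendsto (fun j => (f j n).2.1) 𝒰 (𝓝 (y n).2.1) := fun h n =>
    (Continuous.tendsto (f := fun y : W K P => (y n).2.1) (by fun_prop) y).comp h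
  have t0 : ∀ {f : ℕ → W K P}, Tendsto f 𝒰 (𝓝 y) →
      Tendsto (fun j => (f j 0).1) 𝒰 (𝓝 (y 0).1) := fun h =>
    (Continuous.tendsto (f := fun y : W K P => (y 0).1) (by fun_prop) y).comp h
  refine ⟨fun h => ⟨tendsto_nhds_unique (t0 h) ?_, tendsto_nhds_unique (t1 h 0) ?_,
    tendsto_nhds_unique (t1 h 1) ?_⟩, fun h => ⟨tendsto_nhds_unique (t0 h) ?_,
      tendsto_nhds_unique (t1 h 0) ?_, tendsto_nhds_unique (t1 h 1) ?_⟩⟩
  · simpa only [sh, ox, zero_add] using pow_lim.mono_left h1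
  · simpa only [sh, e1] using hQ'.mul_const _
  · refine (h3.mul (hQ'.mul_const _)).congr fun j => ?_
    rw [← e1, sh, add_comm 1, ((hx _).2.1 j (by rw [ox]; exact (lvl_pow j).1)).1, zero_add]
    rfl
  · simpa [sh, ox] using (pow_lim.mono_left h1).neg
  · refine (h3.inv.mul (hQ'.inv.mul_const _)).congr fun j => ?_
    rw [← e2, sh, add_comm 1, ((hx _).2.1 j (by rw [ox]; exact (lvl_pow j).2)).1, zero_add]
    simp
  · simpa only [sh, e2] using hQ'.inv.mul_const _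

end Pool.Agent.H.MP_f7d718_lc
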