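import Mathlib
import Pool.Agent.H.MP_f7d718_lc.B

namespace Pool.Agent.H.MP_f7d718_lc

open Set Function Filter Topology

variable {K P : Type} [Group K] {a : ℕ → K × Bool} {U : ℕ → P → Set K} {R R' : P → Prop}
  [TopologicalSpace K] [IsTopologicalGroup K] [CompactSpace K] [T2Space K]

/-- the standing hypotheses -/
structure Hyp (a : ℕ → K × Bool) (U : ℕ → P → Set K) : Prop where
  clopen : ∀ j z, IsClopen (U j z)
  anti : ∀ z, Antitone fun j => U j z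
  dense : ∀ β, MapClusterPt β atTop a
  uniq : ∀ g z z', (∀ i, g ∈ U i z) → (∀ i, g ∈ U i z') → z = z'

theorem ulim {X ι : Type} [TopologicalSpace X] [CompactSpace X] {N : Set X} (hN : IsClosed N)
    (𝒰 : Ultrafilter ι) (f : ι → X) (hf : ∀ i, f i ∈ N) : ∃ y ∈ N, Tendsto f 𝒰 (𝓝 y) :=
  hN.isCompact.ultrafilter_le_nhds (𝒰.map f) (le_principal_iff.2 (mem_map.2 (univ_mem' hf)))

theorem minimal (H : Hyp a U) {N : Set (W K P)} (hN : IsClosed N) (hs : N ⊆ XX a U R)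
    (hne : N.Nonempty) (hinv : ∀ m, MapsTo (sh m) N N) : XX a U R ⊆ N := by
  classical
  have dn : ∀ (M : Set (W K P)) (w : ℤ_[2]), IsClosed M → (∀ n : ℤ, ∃ y ∈ M, (y 0).1 = w + n) →
      ∀ u, ∃ y ∈ M, (y 0).1 = u := fun M w hM h u => by
    have c : IsClosed ((fun y : W K P => (y 0).1) '' M) :=
      (hM.isCompact.image (by fun_prop)).isClosed
    have d := (Homeomorph.addLeft w).surjective.denseRange.comp PadicInt.denseRange_intCast
      (Homeomorph.addLeft w).continuous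
    exact c.closure_subset_iff.2 (by rintro _ ⟨n, rfl⟩; exact h n) (d u)
  obtain ⟨x0, hx0⟩ := hne
  obtain ⟨x1, hx1, h1⟩ := dn N (x0 0).1 hN (fun n => ⟨_, hinv n hx0, by
    rw [sh, zero_add, om (hs hx0)]⟩) 0
  have step : ∀ β : K, ∀ x ∈ N, (x 0).1 = 0 →
      (∃ y ∈ N, (y 0).1 = 0 ∧ (y 1).2.1 = β * (x 0).2.1) ∧
      ∃ y ∈ N, (y 0).1 = 0 ∧ (y 0).2.1 = β⁻¹ * (x 1).2.1 ∧ (y 1).2.1 = (x 1).2.1 :=
    fun β x hx h0 => by
    obtain ⟨𝒰, Q, h⟩ := lim H.anti (H.dense (β, true))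
    constructor
    · obtain ⟨y, hy, t⟩ := ulim hN 𝒰 _ fun j : ℕ => hinv (-2 ^ j) hx
      obtain ⟨e1, -, e2⟩ := (h R x (hs hx) h0 y).2 t
      obtain ⟨z, hz, t⟩ := ulim hN 𝒰 _ fun j : ℕ => hinv (2 ^ j) hy
      obtain ⟨e3, -, e4⟩ := (h R y (hs hy) e1 z).1 t
      exact ⟨z, hz, e3, by simp [e4, e2]⟩
    · obtain ⟨y, hy, t⟩ := ulim hN 𝒰 _ fun j : ℕ => hinv (2 ^ j) hx
      obtain ⟨e1, e2, -⟩ := (h R x (hs hx) h0 y).1 t
      obtain ⟨z, hz, t⟩ := ulim hN 𝒰 _ fun j : ℕ => hinv (-2 ^ j) hy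
      obtain ⟨e3, e4, e5⟩ := (h R y (hs hy) e1 z).2 t
      exact ⟨z, hz, e3, by simp [e4, e2], by simp [e5, e2]⟩
  have all : ∀ w h, ∃ y ∈ N, (y 0).1 = w ∧ (y 0).2.1 = h := fun w h => by
    obtain ⟨y, hy, e⟩ := dn (N ∩ {y | (y 0).2.1 = h}) 0
      (hN.inter (isClosed_eq (by fun_prop) continuous_const)) (fun n => by
        obtain ⟨x, hx, e1, e2, -⟩ := ex_pt (a := a) (R := R) H.anti n h 1 True
        obtain ⟨y, hy, e3, e4⟩ := (step ((sh (-n) x 1).2.1 * ((x1 0).2.1)⁻¹) x1 hx1 h1).1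
        obtain ⟨z, hz, e5, e6, e7⟩ :=
          (step ((sh (-n) x 1).2.1 * ((sh (-n) x 0).2.1)⁻¹) y hy e3).2
        have := geq (hs hz) (sh_mem hx (-n)) (by simp [e5, sh, om hx (-n), e1])
          (fun m => hole_ne (hs hz) e5) (by simp [e6, e4]) (by simp [e7, e4]) n
        refine ⟨_, ⟨hinv n hz, ?_⟩, ?_⟩
        · simpa [sh, e2] using this
        · simp [sh, om (hs hz) n, e5]) w
    exact ⟨y, hy.1, e, hy.2⟩
  have hole : ∀ x ∈ XX a U R, (x 0).1 = 0 → x ∈ N := fun x hx h0 => by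
    obtain ⟨𝒰, u1, u2⟩ := mapClusterPt_iff_ultrafilter.1
      (H.dense ((x 1).2.1 * ((x 0).2.1)⁻¹, decide (∃ z, (x 0).2.2 z = true)))
    choose f f1 f2 f3 using fun j : ℕ => all ((2 ^ j : ℤ) : ℤ_[2]) (x 0).2.1
    obtain ⟨y, hy, t⟩ := ulim hN 𝒰 f f1
    have l : ∀ j, lvl j (f j 0).1 := fun j => by rw [f2]; exact (lvl_pow j).1
    have e0 : (y 0).1 = 0 := tendsto_nhds_unique
      ((Continuous.tendsto (f := fun y : W K P => (y 0).1) (by fun_prop) y).comp t)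
      (by simpa only [comp_def, f2] using pow_lim.mono_left u1)
    have e1 : (y 0).2.1 = (x 0).2.1 := tendsto_nhds_unique
      ((Continuous.tendsto (f := fun y : W K P => (y 0).2.1) (by fun_prop) y).comp t)
      (by simp only [comp_def, f3, tendsto_const_nhds])
    have e2 : (y 1).2.1 = (x 1).2.1 := tendsto_nhds_unique
      ((Continuous.tendsto (f := fun y : W K P => (y 1).2.1) (by fun_prop) y).comp t) (by
        have := ((continuous_fst.tendsto _).comp u2).mul_const (x 0).2.1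
        rw [inv_mul_cancel_right] at this
        exact this.congr fun j => by
          rw [← f3 j]
          exact ((hs (f1 j) 0).2.1 j (l j)).1.symm)
    have e3 := geq hx (hs hy) (h0.trans e0.symm) (fun n => hole_ne hx h0) e1.symm e2.symm
    refine (funext fun n => ?_ : x = y) ▸ hy
    by_cases hn : n ≠ 0
    · exact peq hx (hs hy) (h0.trans e0.symm) e3 (hole_ne hx h0 hn)
    obtain rfl := not_not.1 hn
    refine Prod.ext (h0.trans e0.symm) (Prod.ext e1.symm (funext fun z => Bool.eq_iff_iff.2 ?_))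
    have t1 := (Continuous.tendsto (f := fun y : W K P => (y 0).2.2 z) (by fun_prop) y).comp t
    have t2 := (continuous_snd.tendsto _).comp u2
    rw [nhds_discrete, tendsto_pure] at t1 t2
    obtain ⟨j, j1, j2⟩ := (t1.and t2).exists
    have k := ((hs (f1 j) 0).2.1 j (l j)).2 z
    simp only [comp] at j1 j2
    rw [j1, j2, f3, decide_eq_true_iff] at k
    refine ⟨fun h => k.2 ⟨⟨z, h⟩, ((hx 0).2.2 z h).1,
      ((hx 0).2.2 z h).2 j (h0 ▸ dvd_zero _)⟩, fun h => ?_⟩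
    obtain ⟨z', hz'⟩ := (k.1 h).1
    rwa [H.uniq (x 0).2.1 z z' (fun i => e1 ▸ ((hs hy 0).2.2 z h).2 i (e0 ▸ dvd_zero _))
      fun i => ((hx 0).2.2 z' hz').2 i (h0 ▸ dvd_zero _)]
  intro x hx
  by_cases h : ∃ n, (x n).1 = 0
  · obtain ⟨n, hn⟩ := h
    have := hinv (-n) (hole _ (sh_mem hx n) (by rwa [sh, zero_add]))
    rwa [sh_sh, neg_add_cancel, sh_zero] at this
  · push Not at h
    obtain ⟨y, hy, e1, e2⟩ := all (x 0).1 (x 0).2.1
    have e3 := cst hx (hs hy) e1.symm zero_le_one fun n _ _ => h n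
    rw [e2, inv_mul_cancel, inv_mul_eq_one] at e3
    exact (funext fun n => peq hx (hs hy) e1.symm
      (geq hx (hs hy) e1.symm (fun n _ => h n) e2.symm e3) (h n) : x = y) ▸ hy

/-- shifts on the system -/
def shx (m : ℤ) (x : XX a U R) : XX a U R := ⟨sh m x.1, sh_mem x.2 m⟩

theorem omega (H : Hyp a U) (F : Filter ℤ) [F.NeBot] (hF : ∀ l, Tendsto (fun m => l + m) F F)
    {C : Set (XX a U R)} (hC : IsClosed C) (x : XX a U R) (h : ∀ᶠ m in F, shx m x ∈ C)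
    (y : XX a U R) : y ∈ C := by
  have c := closed1 (a := a) (R := R) H.clopen
  have := minimal H (N := {y | MapClusterPt y F fun m => sh m x.1}) isClosed_setOfPred_clusterPt
    (fun y hy => c.mem_of_mapClusterPt hy (Eventually.of_forall fun m => sh_mem x.2 m))
    (exists_clusterPt_of_compactSpace _) (fun l y hy => MapClusterPt.of_comp (hF l) (by
      simpa only [comp_def, sh_sh] using MapClusterPt.continuousAt_comp
        (sh_cont l).continuousAt hy)) y.2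
  obtain ⟨z, hz, e⟩ := (c.isClosedMap_subtype_val C hC).mem_of_mapClusterPt this
    (h.mono fun m hm => ⟨_, hm, rfl⟩)
  rwa [← Subtype.ext e]

/-- doubly asymptotic pairs -/
def DA (x y : W K P) : Prop := ∀ 𝒰 : Ultrafilter ℤ, ↑𝒰 ≤ (cofinite : Filter ℤ) → ∀ p,
  Tendsto (fun m => sh m x) 𝒰 (𝓝 p) → Tendsto (fun m => sh m y) 𝒰 (𝓝 p)

omit [Group K] [IsTopologicalGroup K] [CompactSpace K] [T2Space K] in
theorem DA_of {x y : W K P} (h : ∀ n, n ≠ 0 → x n = y n) : DA x y := fun 𝒰 h1 p h2 =>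
  tendsto_pi_nhds.2 fun n => (tendsto_pi_nhds.1 h2 n).congr'
    (((eventually_cofinite_ne (-n)).filter_mono h1).mono fun m hm => h _ fun e => hm (by omega))

theorem of_DA {x y : W K P} (hx : x ∈ XX a U R) (hy : y ∈ XX a U R') (h : DA x y) :
    (x 0).1 = (y 0).1 ∧ ∀ n, (x n).2.1 = (y n).2.1 := by
  have key : ∀ (F : Filter ℤ) [F.NeBot], F ≤ cofinite → ∃ 𝒰 : Ultrafilter ℤ, ↑𝒰 ≤ F ∧
      Tendsto (fun m => (x m).1 - (y m).1) 𝒰 (𝓝 0) ∧
      Tendsto (fun m => ((x m).2.1)⁻¹ * (y m).2.1) 𝒰 (𝓝 1) := fun F _ hF => by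
    obtain ⟨p, -, t⟩ := ulim isClosed_univ (Ultrafilter.of F) (fun m => sh m x) fun _ => trivial
    have t1 := tendsto_pi_nhds.1 (h _ ((Ultrafilter.of_le F).trans hF) p t) 0
    have t2 := tendsto_pi_nhds.1 t 0
    simp only [sh, zero_add] at t1 t2
    exact ⟨_, Ultrafilter.of_le F, by simpa using t2.fst_nhds.sub t1.fst_nhds,
      by simpa using t2.snd_nhds.fst_nhds.inv.mul t1.snd_nhds.fst_nhds⟩
  have h0 : (x 0).1 = (y 0).1 := by
    obtain ⟨𝒰, -, t, -⟩ := key _ le_rfl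
    have : ∀ m, (x m).1 - (y m).1 = (x 0).1 - (y 0).1 := fun m => by
      rw [om hx, om hy m]
      ring
    simp only [this, tendsto_const_nhds_iff] at t
    exact sub_eq_zero.1 t
  refine ⟨h0, fun n => inv_mul_eq_one.1 ?_⟩
  by_cases hn : ∀ m, n ≤ m → (x m).1 ≠ 0
  · obtain ⟨𝒰, u, -, t⟩ := key atTop atTop_le_cofinite
    exact tendsto_const_nhds_iff.1 (t.congr' (((eventually_ge_atTop n).filter_mono u).mono
      fun m hm => cst hx hy h0 hm fun l hl _ => hn l hl))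
  · push Not at hn
    obtain ⟨l, l1, l2⟩ := hn
    obtain ⟨𝒰, u, -, t⟩ := key atBot atBot_le_cofinite
    refine tendsto_const_nhds_iff.1 (t.congr' (((eventually_le_atBot n).filter_mono u).mono
      fun m hm => (cst hx hy h0 hm fun k _ hk => ?_).symm))
    simpa [sh] using hole_ne (sh_mem hx l) (by rwa [sh, zero_add]) (n := k - l) (by omega)

theorem DA_map (H : Hyp a U) (Φ : XX a U R ≃ₜ XX a U R') {s : ℤ} (hs : s * s = 1)
    (hΦ : ∀ m x, Φ (shx m x) = shx (s * m) (Φ x)) {x y : XX a U R} (h : DA x.1 y.1) :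
    DA (Φ x).1 (Φ y).1 := by
  intro 𝒰 h1 p h2
  have hp : p ∈ XX a U R' := (closed1 H.clopen).mem_of_tendsto h2
    (Eventually.of_forall fun m => sh_mem (Φ x).2 m)
  have e : ∀ m x, shx m (Φ x) = Φ (shx (s * m) x) := fun m x => by
    rw [hΦ, ← mul_assoc, hs, one_mul]
  have t1 : Tendsto (fun m => shx m (Φ x)) 𝒰 (𝓝 ⟨p, hp⟩) := tendsto_subtype_rng.2 h2
  have t2 := (Φ.symm.continuous.tendsto _).comp t1
  simp only [comp_def, e, Φ.symm_apply_apply] at t2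
  have t3 := h (𝒰.map fun m => s * m) ((mul_right_injective₀ (left_ne_zero_of_mul_eq_one hs)
    ).tendsto_cofinite.mono_left h1) _ (tendsto_subtype_rng.1 t2)
  have t4 : Tendsto (fun m => shx (s * m) y) 𝒰 (𝓝 (Φ.symm ⟨p, hp⟩)) := tendsto_subtype_rng.2 t3
  have t5 := (Φ.continuous.tendsto _).comp t4
  simp only [comp_def, ← e, Φ.apply_symm_apply] at t5
  exact tendsto_subtype_rng.1 t5

theorem sing (H : Hyp a U) (Φ : XX a U R ≃ₜ XX a U R') {s : ℤ} (hs : s * s = 1)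
    (hΦ : ∀ m x, Φ (shx m x) = shx (s * m) (Φ x)) {g : K} {z : P} (hz : R z)
    (hg : ∀ i, g ∈ U i z) : ∃ p : XX a U R, (p.1 0).1 = 0 ∧ (p.1 0).2.1 = g ∧
      ∃ n z', ((Φ p).1 n).1 = 0 ∧ R' z' ∧ ∀ i, ((Φ p).1 n).2.1 ∈ U i z' := by
  obtain ⟨x, hx, x0, x1, x2, -⟩ := ex_pt (a := a) (R := R) H.anti 0 g 1 True
  obtain ⟨y, hy, y0, y1, y2, -⟩ := ex_pt (a := a) (R := R) H.anti 0 g 1 False
  have e := x0.trans y0.symm
  obtain ⟨e1, e2⟩ := of_DA (Φ _).2 (Φ _).2 (DA_map H Φ hs hΦ (x := ⟨x, hx⟩) (y := ⟨y, hy⟩)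
    (DA_of fun n hn => peq hx hy e (geq hx hy e (fun n => hole_ne hx x0) (x1.trans y1.symm)
      ((x2 rfl).1.trans (y2 rfl).1.symm)) (hole_ne hx x0 hn)))
  refine ⟨⟨x, hx⟩, x0, x1, ?_⟩
  by_contra hn
  have : Φ ⟨x, hx⟩ = Φ ⟨y, hy⟩ := Subtype.ext (funext fun n => by
    by_cases h : ((Φ ⟨x, hx⟩).1 n).1 = 0
    · have h' : ((Φ ⟨y, hy⟩).1 n).1 = 0 := by rwa [om (Φ _).2, ← e1, ← om (Φ _).2]
      refine Prod.ext (h.trans h'.symm) (Prod.ext (e2 n) (funext fun z' =>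
        Bool.eq_iff_iff.2 (iff_of_false (fun b => ?_) fun b => ?_)))
      · have := ((Φ _).2 n).2.2 z' b
        exact hn ⟨n, z', h, this.1, fun i => this.2 i (h ▸ dvd_zero _)⟩
      · have := ((Φ _).2 n).2.2 z' b
        exact hn ⟨n, z', h, this.1, fun i => e2 n ▸ this.2 i (h' ▸ dvd_zero _)⟩
    · exact peq (Φ _).2 (Φ _).2 e1 e2 h)
  have e3 : x = y := congrArg Subtype.val (Φ.injective this)
  exact (((y2 rfl).2 z).1 (e3 ▸ ((x2 rfl).2 z).2 ⟨trivial, hz, hg⟩)).1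

theorem half (H : Hyp a U) (Φ : XX a U R ≃ₜ XX a U R')
    (hΦ : ∀ m x, Φ (shx m x) = shx m (Φ x)) {n : ℤ} {k : K}
    (h : ∀ p, ((Φ p).1 n).1 = (p.1 0).1 ∧ ((Φ p).1 n).2.1 = (p.1 0).2.1 * k) (g : K) (z : P)
    (hz : R z) (hg : ∀ i, g ∈ U i z) : ∃ z', R' z' ∧ ∀ i, g * k ∈ U i z' := by
  obtain ⟨p, p0, rfl, m, z', h1, h2, h3⟩ := sing H Φ (one_mul 1) (by simpa using hΦ) hz hg
  have h4 := (h p).1
  rw [p0, ← h1, om (Φ p).2, om (Φ p).2 m, add_right_inj, Int.cast_inj] at h4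
  exact ⟨z', h2, by rwa [← (h p).2, h4]⟩

theorem rigid (H : Hyp a U) (Φ : XX a U R ≃ₜ XX a U R')
    (hΦ : ∀ m x, Φ (shx m x) = shx m (Φ x)) (h0 : ∃ g z, R z ∧ ∀ i, g ∈ U i z) :
    ∃ k : K, (∀ g z, R z → (∀ i, g ∈ U i z) → ∃ z', R' z' ∧ ∀ i, g * k ∈ U i z') ∧
      ∀ g z, R' z → (∀ i, g ∈ U i z) → ∃ z', R z' ∧ ∀ i, g * k⁻¹ ∈ U i z' := by
  obtain ⟨g, z, hz, hg⟩ := h0
  obtain ⟨p, p0, -, n, -, h1, -⟩ := sing H Φ (one_mul 1) (by simpa using hΦ) hz hg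
  obtain ⟨k, hk⟩ : ∃ k, k = ((p.1 0).2.1)⁻¹ * ((Φ p).1 n).2.1 := ⟨_, rfl⟩
  have c0 : Continuous fun q : XX a U R => q.1 0 :=
    (continuous_apply 0).comp continuous_subtype_val
  have c1 : Continuous fun q => (Φ q).1 n :=
    (continuous_apply n).comp (continuous_subtype_val.comp Φ.continuous)
  have h := omega H atBot (fun l => tendsto_atBot_add_const_left _ l tendsto_id)
    (C := {q | ((Φ q).1 n).1 = (q.1 0).1 ∧ ((Φ q).1 n).2.1 = (q.1 0).2.1 * k})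
    ((isClosed_eq c1.fst c0.fst).inter (isClosed_eq c1.snd.fst (c0.snd.fst.mul continuous_const))) p
    ((eventually_le_atBot 0).mono fun m hm => by
      have e := cst p.2 (shx n (Φ p)).2 (by simp [shx, sh, p0, h1]) hm
        fun l _ hl => hole_ne p.2 p0 hl.ne
      have e2 := om (shx n (Φ p)).2 m
      simp only [mem_ofPred_eq, hΦ]
      simp only [shx, sh, zero_add, add_comm n m] at e e2 ⊢
      exact ⟨by rw [e2, h1, om p.2 m, p0], by rw [hk, e, mul_inv_cancel_left]⟩)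
  refine ⟨k, half H Φ hΦ h, half H Φ.symm (fun m x => Φ.injective (by simp [hΦ])) (n := -n)
    fun q => ?_⟩
  have := h (shx (-n) (Φ.symm q))
  rw [mem_ofPred_eq, hΦ, Φ.apply_symm_apply] at this
  simp only [shx, sh, add_neg_cancel, zero_add] at this
  exact ⟨this.1.symm, by rw [this.2, mul_inv_cancel_right]⟩

theorem noflip (H : Hyp a U) (Φ : XX a U R ≃ₜ XX a U R')
    (hΦ : ∀ m x, Φ (shx m x) = shx (-m) (Φ x)) (h0 : ∃ g z, R z ∧ ∀ i, g ∈ U i z) (b c : K) :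
    b * c = c * b := by
  obtain ⟨g, z, hz, hg⟩ := h0
  have hΦ' : ∀ m x, Φ (shx m x) = shx (-1 * m) (Φ x) := by simpa using hΦ
  obtain ⟨p, p0, -, n, -, h1, -⟩ := sing H Φ (by norm_num) hΦ' hz hg
  haveI : CompactSpace (XX a U R) := isCompact_iff_compactSpace.1 (closed1 H.clopen).isCompact
  obtain ⟨Ψ, hΨ⟩ : ∃ Ψ : XX a U R → W K P, Ψ = fun q => sh n (Φ q).1 := ⟨_, rfl⟩
  have c1 : Continuous Ψ := hΨ ▸ (sh_cont n).comp (continuous_subtype_val.comp Φ.continuous)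
  have c2 : ∀ q, Ψ q ∈ XX a U R' := fun q => hΨ ▸ sh_mem (Φ q).2 n
  have c3 : ∀ m q, Ψ (shx m q) = sh (-m) (Ψ q) := fun m q => by
    simp only [hΨ, hΦ]
    simp only [shx, sh_sh, add_comm]
  obtain ⟨S, hS⟩ : ∃ S : K → K → K → K → Prop, ∀ g0 g1 h0 h1, S g0 g1 h0 h1 ↔ ∃ q : XX a U R,
      (q.1 0).1 = 0 ∧ (Ψ q 0).1 = 0 ∧ (q.1 0).2.1 = g0 ∧ (q.1 1).2.1 = g1 ∧ (Ψ q 0).2.1 = h0 ∧
        (Ψ q 1).2.1 = h1 := ⟨_, fun _ _ _ _ => Iff.rfl⟩
  have step : ∀ β g0 g1 h0 h1, S g0 g1 h0 h1 → S g0 (β * g0) (β⁻¹ * h1) h1 ∧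
      S (β⁻¹ * g1) g1 h0 (β * h0) := fun β => by
    obtain ⟨𝒰, Q, h⟩ := lim H.anti (H.dense (β, true))
    have F : ∀ g0 g1 h0 h1, S g0 g1 h0 h1 →
        S (Q * g1) (β * (Q * g1)) (β⁻¹ * (Q⁻¹ * h0)) (Q⁻¹ * h0) ∧
        S (β⁻¹ * (Q⁻¹ * g0)) (Q⁻¹ * g0) (Q * h1) (β * (Q * h1)) := by
      simp only [hS]
      rintro _ _ _ _ ⟨q, q0, q1, rfl, rfl, rfl, rfl⟩
      constructor
      · obtain ⟨y, -, t⟩ := ulim isClosed_univ 𝒰 (fun j : ℕ => shx (2 ^ j) q) fun _ => trivial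
        obtain ⟨e1, e2⟩ := (h R q.1 q.2 q0 y.1).1 (tendsto_subtype_rng.1 t)
        obtain ⟨e3, e4⟩ := (h R' _ (c2 q) q1 (Ψ y)).2
          (by simpa only [comp_def, c3] using (c1.tendsto y).comp t)
        exact ⟨y, e1, e3, e2.1, e2.2, e4⟩
      · obtain ⟨y, -, t⟩ := ulim isClosed_univ 𝒰 (fun j : ℕ => shx (-2 ^ j) q) fun _ => trivial
        obtain ⟨e1, e2⟩ := (h R q.1 q.2 q0 y.1).2 (tendsto_subtype_rng.1 t)
        obtain ⟨e3, e4⟩ := (h R' _ (c2 q) q1 (Ψ y)).1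
          (by simpa only [comp_def, c3, neg_neg] using (c1.tendsto y).comp t)
        exact ⟨y, e1, e3, e2.1, e2.2, e4⟩
    exact fun g0 g1 h0 h1 h => ⟨by simpa using (F _ _ _ _ (F _ _ _ _ h).2).1,
      by simpa using (F _ _ _ _ (F _ _ _ _ h).1).2⟩
  have st2 : ∀ γ g h, S g g h h → S (γ⁻¹ * g) (γ⁻¹ * g) (γ * h) (γ * h) := fun γ g h k => by
    simpa using (step 1 _ _ _ _ (step γ _ _ _ _ k).2).1
  have s0 : S (p.1 0).2.1 (p.1 0).2.1 (Ψ p 1).2.1 (Ψ p 1).2.1 := by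
    simpa using (step 1 _ _ _ _ ((hS _ _ _ _).2
      ⟨p, p0, by simp [hΨ, sh, h1], rfl, rfl, rfl, rfl⟩)).1
  obtain ⟨x, x0, -, x1, x2, x3, -⟩ := (hS _ _ _ _).1 (st2 b _ _ (st2 c _ _ s0))
  obtain ⟨y, y0, -, y1, y2, y3, -⟩ := (hS _ _ _ _).1 (st2 (c * b) _ _ s0)
  rw [mul_inv_rev, mul_assoc] at y1 y2
  have e := x0.trans y0.symm
  have := (of_DA (Φ _).2 (Φ _).2 (DA_map H Φ (by norm_num) hΦ' (x := x) (y := y)
    (DA_of fun n hn => peq x.2 y.2 e (geq x.2 y.2 e (fun n => hole_ne x.2 x0) (x1.trans y1.symm)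
      (x2.trans y2.symm)) (hole_ne x.2 x0 hn)))).2 n
  simp only [hΨ, sh, zero_add] at x3 y3
  rw [x3, y3, ← mul_assoc] at this
  exact mul_right_cancel this

end Pool.Agent.H.MP_f7d718_lc
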