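import Mathlib

namespace Pool.Agent.H.MP_f7d718_lc

open Set Function Filter Topology TopologicalSpace MeasureTheory

variable {W : Type} (U : ℕ → Set W)

/-- the set with a given code -/
def cs (l : List (ℕ × Bool)) : Set W := {x | ∀ p ∈ l, (x ∈ U p.1 ↔ p.2 = true)}

/-- splitting -/
def spl (A : Set W) (l : List (ℕ × Bool)) (n : ℕ) : Prop :=
  ∀ b, (A ∩ cs U ((n, b) :: l)).Nonempty

theorem spl_ex (A : Set W) (l : List (ℕ × Bool)) :
    ∃ n, spl U A l n ∨ ¬ ∃ m, spl U A l m := by
  by_cases h : ∃ m, spl U A l m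
  · exact h.imp fun _ => Or.inl
  · exact ⟨0, Or.inr h⟩

open Classical in
/-- the first splitting index -/
noncomputable def nx (A : Set W) (l : List (ℕ × Bool)) : ℕ := Nat.find (spl_ex U A l)

open Classical in
/-- the next bit -/
noncomputable def bit (A : Set W) (x : W) (l : List (ℕ × Bool)) : Bool := decide (x ∈ U (nx U A l))

/-- the codes along a sequence -/
noncomputable def cd (A : Set W) (c : ℕ → Bool) : ℕ → List (ℕ × Bool)
  | 0 => []
  | k + 1 => (nx U A (cd A c k), c k) :: cd A c k

/-- the codes along a point -/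
noncomputable def dd (A : Set W) (x : W) : ℕ → List (ℕ × Bool)
  | 0 => []
  | k + 1 => (nx U A (dd A x k), bit U A x (dd A x k)) :: dd A x k

/-- the coding map -/
noncomputable def gg (A : Set W) (x : W) (k : ℕ) : Bool := bit U A x (dd U A x k)

variable {U}

theorem dd_eq (A : Set W) (x : W) (k : ℕ) : dd U A x k = cd U A (gg U A x) k := by
  induction k with
  | zero => rfl
  | succ k ih => rw [cd, ← ih]; rfl

theorem mem_dd (A : Set W) (x : W) (k : ℕ) : x ∈ cs U (dd U A x k) := by
  induction k with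
  | zero => simp [dd, cs]
  | succ k ih => exact List.forall_mem_cons.2 ⟨by simp [bit], ih⟩

theorem nx_spec {A : Set W} {l : List (ℕ × Bool)} {m : ℕ} (h : spl U A l m) :
    spl U A l (nx U A l) ∧ nx U A l ≤ m := by
  classical
  exact ⟨(Nat.find_spec (spl_ex U A l)).resolve_right (not_not.2 ⟨m, h⟩),
    Nat.find_min' _ (Or.inl h)⟩

theorem spl_of {A : Set W} {l : List (ℕ × Bool)} {m : ℕ} {x y : W} (hx : x ∈ A ∩ cs U l)
    (hy : y ∈ A ∩ cs U l) (h1 : x ∈ U m) (h2 : y ∉ U m) : spl U A l m
  | true => ⟨x, hx.1, List.forall_mem_cons.2 ⟨by simpa using h1, hx.2⟩⟩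
  | false => ⟨y, hy.1, List.forall_mem_cons.2 ⟨by simpa using h2, hy.2⟩⟩

theorem cd_mono (A : Set W) (c : ℕ → Bool) : Monotone fun k => {p | p ∈ cd U A c k} :=
  monotone_nat_of_le_succ fun _ _ h => List.mem_cons_of_mem _ h

theorem gg_inj (hU : ∀ x y, x ≠ y → ∃ m, x ∈ U m ∧ y ∉ U m) (A : Set W) : InjOn (gg U A) A := by
  intro x hx y hy h
  by_contra hn
  obtain ⟨m, h1, h2⟩ := hU x y hn
  have k := fun k => nx_spec (spl_of (l := cd U A (gg U A x) k) ⟨hx, dd_eq A x k ▸ mem_dd A x k⟩
    ⟨hy, h ▸ dd_eq A y k ▸ mem_dd A y k⟩ h1 h2)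
  refine (finite_Iic m).not_infinite (infinite_of_injective_forall_mem
    (Injective.of_lt_imp_ne fun i j hij e => ?_) fun i => (k i).2)
  obtain ⟨z, -, hz⟩ := (k j).1 (!gg U A x i)
  have h3 := hz _ List.mem_cons_self
  have h4 := hz _ (List.mem_cons_of_mem _ (cd_mono A _ hij List.mem_cons_self))
  rw [← e, h4] at h3
  simp at h3

variable [TopologicalSpace W]

theorem cs_clopen (hU : ∀ n, IsClopen (U n)) (l : List (ℕ × Bool)) : IsClopen (cs U l) := by
  induction l with
  | nil => simp [cs, isClopen_univ]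
  | cons p l ih =>
    obtain ⟨n, _ | _⟩ := p
    · simpa [cs, ofPred_and, compl_def] using (hU n).compl.inter ih
    · simpa [cs, ofPred_and] using (hU n).inter ih

theorem gg_cont (hU : ∀ n, IsClopen (U n)) (A : Set W) : Continuous (gg U A) := by
  have b : ∀ l, IsLocallyConstant fun x => bit U A x l := fun l =>
    (IsLocallyConstant.iff_continuous _).2 ((continuous_boolIndicator_iff_isClopen _).2 (hU _))
  have c : ∀ {f : W → List (ℕ × Bool)}, IsLocallyConstant f →
      IsLocallyConstant fun x => bit U A x (f x) := fun {f} hf =>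
    (IsLocallyConstant.iff_eventually_eq _).2 fun x => by
      filter_upwards [hf.eventually_eq x, (b (f x)).eventually_eq x] with y h1 h2
      rw [h1, h2]
  have d : ∀ k, IsLocallyConstant fun x => dd U A x k := fun k => by
    induction k with
    | zero => exact IsLocallyConstant.const _
    | succ k ih => exact ih.comp₂ (c ih) fun l b => (nx U A l, b) :: l
  exact continuous_pi fun k => (c (d k)).continuous

theorem gg_surj [CompactSpace W] (hU : ∀ n, IsClopen (U n))
    (hU2 : ∀ x y, x ≠ y → ∃ m, x ∈ U m ∧ y ∉ U m) {A : Set W} (hA : IsClosed A)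
    (hne : A.Nonempty) (hp : Preperfect A) (c : ℕ → Bool) : ∃ x ∈ A, gg U A x = c := by
  have ne : ∀ k, (A ∩ cs U (cd U A c k)).Nonempty := fun k => by
    induction k with
    | zero => simpa [cd, cs] using hne
    | succ k ih =>
      obtain ⟨x, hx⟩ := ih
      obtain ⟨y, hy, hxy⟩ := preperfect_iff_nhds.1 hp x hx.1 _
        ((cs_clopen hU _).isOpen.mem_nhds hx.2)
      obtain ⟨m, h1, h2⟩ := hU2 y x hxy
      exact (nx_spec (spl_of hy.symm hx h1 h2)).1 (c k)
  obtain ⟨x, hx⟩ := IsCompact.nonempty_iInter_of_sequence_nonempty_isCompact_isClosed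
    (fun k => A ∩ cs U (cd U A c k)) (fun k x hx => ⟨hx.1, fun p hp =>
      hx.2 p (List.mem_cons_of_mem _ hp)⟩) ne (hA.inter (cs_clopen hU _).isClosed).isCompact
      fun k => hA.inter (cs_clopen hU _).isClosed
  rw [mem_iInter] at hx
  have b : ∀ k, bit U A x (cd U A c k) = c k := fun k => Bool.eq_iff_iff.2 (by
    simpa [bit] using (hx (k + 1)).2 _ List.mem_cons_self)
  have d : ∀ k, dd U A x k = cd U A c k := fun k => by
    induction k with
    | zero => rfl
    | succ k ih => rw [dd, cd, ih, b]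
  exact ⟨x, (hx 0).1, funext fun k => by rw [gg, d, b]⟩

theorem gg_meas [CompactSpace W] [MeasurableSpace W] [OpensMeasurableSpace W]
    {Y : Type} [TopologicalSpace Y] [MeasurableSpace Y] [OpensMeasurableSpace Y]
    (hU : ∀ n, IsClopen (U n)) {X : Y → Set W} (hX : IsClosed {p : Y × W | p.2 ∈ X p.1}) :
    Measurable fun p : Y × W => gg U (X p.1) p.2 := by
  classical
  letI : MeasurableSpace (List (ℕ × Bool)) := ⊤
  have s : ∀ l n, MeasurableSet {y | spl U (X y) l n} := fun l n => by
    simp only [spl, ofPred_forall]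
    refine MeasurableSet.iInter fun b => IsClosed.measurableSet ?_
    convert isClosedMap_fst_of_compactSpace _
      (hX.inter ((cs_clopen hU ((n, b) :: l)).isClosed.preimage continuous_snd)) using 1
    ext y
    simp [Set.Nonempty]
  have n1 : ∀ l, Measurable fun y => nx U (X y) l := fun l => measurable_find _ fun k =>
    (s l k).union (MeasurableSet.compl (s := {y | ∃ m, spl U (X y) l m})
      (by simpa only [ofPred_exists] using MeasurableSet.iUnion (s l)))
  have n2 : ∀ {f : Y × W → List (ℕ × Bool)}, Measurable f →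
      Measurable fun p => nx U (X p.1) (f p) := fun hf =>
    (measurable_from_prod_countable_left (f := fun q : (Y × W) × List (ℕ × Bool) =>
      nx U (X q.1.1) q.2) fun l => (n1 l).comp measurable_fst).comp (measurable_id.prodMk hf)
  have n3 : ∀ {f : Y × W → List (ℕ × Bool)}, Measurable f →
      Measurable fun p => bit U (X p.1) p.2 (f p) := fun hf =>
    (measurable_from_prod_countable_left (f := fun q : (Y × W) × ℕ => decide (q.1.2 ∈ U q.2))
      fun n => measurable_to_bool (by
        simpa [preimage] using measurable_snd (hU n).isOpen.measurableSet)).comp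
      (measurable_id.prodMk (n2 hf))
  have d : ∀ k, Measurable fun p : Y × W => dd U (X p.1) p.2 k := fun k => by
    induction k with
    | zero => exact measurable_const
    | succ k ih =>
      exact (measurable_of_countable fun q : (ℕ × Bool) × List (ℕ × Bool) => q.1 :: q.2).comp
        (((n2 ih).prodMk (n3 ih)).prodMk ih)
  exact measurable_pi_lambda _ fun k => n3 (d k)

theorem meas_cm {Y : Type} [MeasurableSpace Y] (f : Y → C(ℕ → Bool, ℕ → Bool))
    (h : ∀ c, Measurable fun y => f y c) : Measurable[_, borel _] f := by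
  haveI : (uniformity Bool).IsCountablyGenerated := by
    rw [DiscreteUniformity.eq_principal_setRelId]
    infer_instance
  letI : MeasurableSpace C(ℕ → Bool, ℕ → Bool) := borel _
  haveI : BorelSpace C(ℕ → Bool, ℕ → Bool) := ⟨rfl⟩
  haveI := IsCompletelyMetrizableSpace.of_completeSpace_metrizable (X := C(ℕ → Bool, ℕ → Bool))
  haveI : PolishSpace C(ℕ → Bool, ℕ → Bool) := ⟨⟩
  have c : Continuous fun (g : C(ℕ → Bool, ℕ → Bool)) n => g (denseSeq (ℕ → Bool) n) := by
    fun_prop
  refine (c.measurableEmbedding fun g g' e => ContinuousMap.coe_injective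
    ((denseRange_denseSeq _).equalizer g.continuous g'.continuous e)).measurable_comp_iff.1 ?_
  exact measurable_pi_lambda _ fun n => h _

theorem param [CompactSpace W] [T2Space W] [SecondCountableTopology W] [TotallyDisconnectedSpace W]
    {Y : Type} [TopologicalSpace Y] [PolishSpace Y] [MeasurableSpace Y] [BorelSpace Y] [Nonempty Y]
    {X : Y → Set W} (hX : IsClosed {p : Y × W | p.2 ∈ X p.1}) (hne : ∀ y, (X y).Nonempty)
    (hp : ∀ y, Preperfect (X y)) : ∃ h : ∀ y, X y ≃ₜ (ℕ → Bool),
      ∀ (T : W → W) (_ : Continuous T) (hT : ∀ y, MapsTo T (X y) (X y)) (c : ℕ → Bool),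
        Measurable fun y => h y ⟨T ((h y).symm c), hT y ((h y).symm c).2⟩ := by
  haveI := Clopens.countable_iff_secondCountable.2 ‹SecondCountableTopology W›
  obtain ⟨e, he⟩ := exists_surjective_nat (Clopens W)
  have hU : ∀ n, IsClopen (e n : Set W) := fun n => (e n).isClopen
  have hU2 : ∀ x y, x ≠ y → ∃ m, x ∈ (e m : Set W) ∧ y ∉ (e m : Set W) := fun x y h => by
    obtain ⟨V, h1, h2, h3⟩ := exists_isClopen_of_totally_separated h
    obtain ⟨m, hm⟩ := he ⟨V, h1⟩
    exact ⟨m, by rw [hm]; exact ⟨h2, h3⟩⟩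
  have cl : ∀ y, IsClosed (X y) := fun y => hX.preimage (f := fun x => (y, x)) (by fun_prop)
  have bij : ∀ y, Bijective fun x : X y => gg (fun n => (e n : Set W)) (X y) x := fun y =>
    ⟨fun x x' h => Subtype.ext (gg_inj hU2 _ x.2 x'.2 h), fun c => by
      obtain ⟨x, h1, h2⟩ := gg_surj hU hU2 (cl y) (hne y) (hp y) c
      exact ⟨⟨x, h1⟩, h2⟩⟩
  haveI : ∀ y, CompactSpace (X y) := fun y => isCompact_iff_compactSpace.1 (cl y).isCompact
  refine ⟨fun y => Continuous.homeoOfEquivCompactToT2 (f := Equiv.ofBijective _ (bij y))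
    ((gg_cont hU _).comp continuous_subtype_val), fun T hT hT2 c => ?_⟩
  letI := metrizableSpaceMetric W
  borelize W
  have m := gg_meas hU hX
  haveI := hX.measurableSet.standardBorel
  haveI : Nonempty {p : Y × W | p.2 ∈ X p.1} := by
    obtain ⟨y⟩ := ‹Nonempty Y›
    obtain ⟨x, hx⟩ := hne y
    exact ⟨⟨(y, x), hx⟩⟩
  have me := Measurable.measurableEmbedding (f := fun p : {p : Y × W | p.2 ∈ X p.1} =>
    (p.1.1, gg (fun n => (e n : Set W)) (X p.1.1) p.1.2))
    (measurable_subtype_coe.fst.prodMk (m.comp measurable_subtype_coe)) (by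
      rintro ⟨⟨y, x⟩, h⟩ ⟨⟨y', x'⟩, h'⟩ e
      obtain ⟨rfl, e⟩ := Prod.mk.inj e
      obtain rfl := gg_inj hU2 _ h h' e
      rfl)
  have m2 := m.comp (measurable_id.prodMk (hT.measurable.comp (measurable_subtype_coe.snd.comp
    (me.measurable_invFun.comp (measurable_id.prodMk (measurable_const (a := c)))))))
  convert m2 using 2 with y
  have := me.leftInverse_invFun ⟨(y, (Equiv.ofBijective _ (bij y)).symm c), Subtype.prop _⟩
  have e2 : gg (fun n => (e n : Set W)) (X y) ((Equiv.ofBijective _ (bij y)).symm c) = c :=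
    (Equiv.ofBijective _ (bij y)).apply_symm_apply c
  simp only [e2] at this
  simp only [comp, id, this]
  rfl

end Pool.Agent.H.MP_f7d718_lc
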