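import Mathlib

namespace Pool.Agent.H.MP_f7d718_lc

open Set

/-- homeomorphisms of the Cantor set -/
def Homeo : Type := (ℕ → Bool) ≃ₜ (ℕ → Bool)

/-- the underlying homeomorphism -/
def Homeo.h (T : Homeo) : (ℕ → Bool) ≃ₜ (ℕ → Bool) := T

/-- uniform convergence (the compact-open topology) -/
instance tH : TopologicalSpace Homeo :=
  TopologicalSpace.induced (fun T => (T.h : C(ℕ → Bool, ℕ → Bool))) inferInstance

/-- every orbit is dense -/
def Minimal (T : Homeo) : Prop := ∀ x, Dense (range fun n : ℤ => (T.h ^ n) x)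

/-- topologically transitive -/
def Transitive (T : Homeo) : Prop := ∀ U V : Set (ℕ → Bool), IsOpen U → IsOpen V → U.Nonempty →
  V.Nonempty → ∃ n : ℤ, ((T.h ^ n) '' U ∩ V).Nonempty

/-- topological conjugacy -/
def Conj (S T : Homeo) : Prop := ∃ h : (ℕ → Bool) ≃ₜ (ℕ → Bool), S.h = h * T.h * h⁻¹

/-- isomorphism of binary relations on the natural numbers -/
def Iso (G H : ℕ → ℕ → Bool) : Prop := ∃ σ : Equiv.Perm ℕ, ∀ i j, G i j = H (σ i) (σ j)

/-- conjugacy on the class `𝒞`, with the Borel sets of the subspace topology, is Borel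
bi-reducible with isomorphism of binary relations on the natural numbers -/
def BiRed (𝒞 : Homeo → Prop) : Prop :=
  (∃ f : (ℕ → ℕ → Bool) → {T // 𝒞 T}, @Measurable _ _ _ (borel _) f ∧
    ∀ G H, Iso G H ↔ Conj (f G).1 (f H).1) ∧
  ∃ g : {T // 𝒞 T} → (ℕ → ℕ → Bool), @Measurable _ _ (borel _) _ g ∧
    ∀ S T, Conj S.1 T.1 ↔ Iso (g S) (g T)

end Pool.Agent.H.MP_f7d718_lc
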