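import Mathlib
import Pool.Agent.H.MP_f7d718_lc.A
import Pool.Agent.H.MP_f7d718_lc.C
import Pool.Agent.H.MP_f7d718_lc.D

namespace Pool.Agent.H.MP_f7d718_lc

open Set Function Filter Topology TopologicalSpace MeasureTheory

section gen

variable {K P : Type} [Group K] {a : ℕ → K × Bool} {U : ℕ → P → Set K} {R R' : P → Prop}

/-- relabelling -/
def mp (ρ : P ≃ P) (k : K) (x : W K P) : W K P :=
  fun n => ((x n).1, (x n).2.1 * k, fun z => (x n).2.2 (ρ.symm z))

theorem mp_mem {ρ : P ≃ P} {k : K} (h1 : ∀ j z g, g * k ∈ U j (ρ z) ↔ g ∈ U j z)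
    (h2 : ∀ z, R' (ρ z) ↔ R z) {x : W K P} (hx : x ∈ XX a U R) : mp ρ k x ∈ XX a U R' := by
  refine fun n => ⟨(hx n).1, fun j hj => ⟨?_, fun z => ?_⟩, fun z => ?_⟩
  · simp only [mp, ((hx n).2.1 j hj).1, mul_assoc]
  · obtain ⟨z, rfl⟩ := ρ.surjective z
    simp only [mp, ρ.symm_apply_apply, h1, h2]
    exact ((hx n).2.1 j hj).2 z
  · obtain ⟨z, rfl⟩ := ρ.surjective z
    simp only [mp, ρ.symm_apply_apply, h1, h2]
    exact (hx n).2.2 z

theorem shx_shx (m l : ℤ) (x : XX a U R) : shx m (shx l x) = shx (m + l) x :=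
  Subtype.ext (sh_sh _ _ _)

theorem shx_zero (x : XX a U R) : shx 0 x = x := Subtype.ext (sh_zero _)

theorem all_m (Φ : XX a U R → XX a U R') (s : ℤ) (h : ∀ x, Φ (shx 1 x) = shx s (Φ x)) (m : ℤ) :
    ∀ x, Φ (shx m x) = shx (s * m) (Φ x) := by
  induction m using Int.induction_on with
  | zero => simp [shx_zero]
  | succ n ih => intro x; rw [← shx_shx, ih, h, shx_shx, mul_add, mul_one]
  | pred n ih =>
    intro x
    have := h (shx (-n - 1) x)
    rw [shx_shx, add_sub_cancel, ih] at this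
    rw [← shx_zero (Φ _), ← neg_add_cancel s, ← shx_shx, ← this, shx_shx]
    congr 1
    ring

variable [TopologicalSpace K] [IsTopologicalGroup K]

theorem conj_of (ρ : P ≃ P) (k : K) (h1 : ∀ j z g, g * k ∈ U j (ρ z) ↔ g ∈ U j z)
    (h2 : ∀ z, R' (ρ z) ↔ R z) :
    ∃ Φ : XX a U R ≃ₜ XX a U R', ∀ x, Φ (shx 1 x) = shx 1 (Φ x) := by
  have c : ∀ (ρ : P ≃ P) (k : K), Continuous (mp ρ k : W K P → W K P) := fun ρ k => by
    unfold mp
    fun_prop
  refine ⟨⟨⟨fun x => ⟨_, mp_mem h1 h2 x.2⟩, fun x => ⟨_, mp_mem (ρ := ρ.symm) (k := k⁻¹)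
    (fun j z g => by rw [← h1]; simp) (fun z => by rw [← h2]; simp) x.2⟩,
    fun x => Subtype.ext (funext fun n => by simp [mp]),
    fun x => Subtype.ext (funext fun n => by simp [mp])⟩,
    ((c _ _).comp continuous_subtype_val).subtype_mk _,
    ((c _ _).comp continuous_subtype_val).subtype_mk _⟩, fun x => rfl⟩

/-- the shift homeomorphism -/
def shh : XX a U R ≃ₜ XX a U R where
  toFun := shx 1
  invFun := shx (-1)
  left_inv x := by rw [shx_shx, neg_add_cancel, shx_zero]
  right_inv x := by rw [shx_shx, add_neg_cancel, shx_zero]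
  continuous_toFun := ((sh_cont _).comp continuous_subtype_val).subtype_mk _
  continuous_invFun := ((sh_cont _).comp continuous_subtype_val).subtype_mk _

variable [CompactSpace K] [T2Space K]

theorem perf (H : Hyp a U) : Preperfect (XX a U R) := by
  refine preperfect_iff_nhds.2 fun x hx V hV => by_contra fun hn => ?_
  refine omega H atTop (fun l => tendsto_atTop_add_const_left _ l tendsto_id)
    (C := {q | q.1 ∉ interior V}) (isOpen_interior.isClosed_compl.preimage continuous_subtype_val)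
    ⟨x, hx⟩ ((eventually_gt_atTop 0).mono fun m hm h => hn ⟨_, ⟨interior_subset h, sh_mem hx m⟩,
      fun e => ?_⟩) ⟨x, hx⟩ (mem_interior_iff_mem_nhds.2 hV)
  have := congrArg (fun y : W K P => (y 0).1) e
  simp only [shx, sh, zero_add, om hx m, add_eq_left, Int.cast_eq_zero] at this
  omega

theorem fdense (H : Hyp a U) (x : XX a U R) : Dense (range fun n : ℕ => (shx 1)^[n] x) := by
  refine omega H atTop (fun l => tendsto_atTop_add_const_left _ l tendsto_id) isClosed_closure x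
    ((eventually_ge_atTop 0).mono fun m hm => subset_closure ?_)
  obtain ⟨n, rfl⟩ := Int.eq_ofNat_of_zero_le hm
  refine ⟨n, ?_⟩
  clear hm
  induction n with
  | zero => exact (shx_zero x).symm
  | succ n ih => simp only [iterate_succ_apply', ih, shx_shx, Nat.cast_succ, add_comm]

end gen

/-- finite symmetric groups -/
def Sy (n : ℕ) : Type := Equiv.Perm (Fin (n + 3))

instance (n : ℕ) : Group (Sy n) := inferInstanceAs (Group (Equiv.Perm (Fin (n + 3))))
instance (n : ℕ) : Finite (Sy n) := inferInstanceAs (Finite (Equiv.Perm (Fin (n + 3))))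
instance (n : ℕ) : TopologicalSpace (Sy n) := ⊥
instance (n : ℕ) : DiscreteTopology (Sy n) := ⟨rfl⟩
instance (n : ℕ) : IsTopologicalGroup (Sy n) where
  continuous_mul := continuous_of_discreteTopology
  continuous_inv := continuous_of_discreteTopology

/-- the underlying permutation -/
def up {n : ℕ} (g : Sy n) : Equiv.Perm (Fin (n + 3)) := g

variable (I : Type) [Countable I] [Nonempty I]

/-- the cuts -/
def UU (j : ℕ) (z : ℕ × ℕ) : Set (∀ n, Sy n) :=
  {g | ∀ i < j, up (g i) (pt I z.1 i) = 0 ∧ up (g i) (pt I z.2 i) = 1}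

theorem UU_all (g : ∀ n, Sy n) (z : ℕ × ℕ) : (∀ j, g ∈ UU I j z) ↔
    ∀ i, up (g i) (pt I z.1 i) = 0 ∧ up (g i) (pt I z.2 i) = 1 :=
  ⟨fun h i => h (i + 1) i (Nat.lt_succ_self i), fun h _ i _ => h i⟩

theorem ex_hyp : ∃ a : ℕ → (∀ n, Sy n) × Bool, Hyp a (UU I) := by
  refine ⟨fun j => denseSeq _ j.unpair.1, fun j z => ?_, fun z i j h g hg k hk => hg k (by omega),
    fun β => ?_, fun g z z' h h' => ?_⟩
  · simp only [UU, ofPred_forall]
    exact (finite_Iio j).isClopen_biInter fun i _ => (isClopen_discrete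
      {g : Sy i | up g (pt I z.1 i) = 0 ∧ up g (pt I z.2 i) = 1}).preimage (continuous_apply i)
  · refine mapClusterPt_iff_frequently.2 fun s hs => frequently_atTop.2 fun N => ?_
    obtain ⟨_, h, i, rfl⟩ := (denseRange_denseSeq _).inter_nhds_nonempty hs |>.imp fun _ => And.symm
    exact ⟨Nat.pair i N, Nat.right_le_pair _ _, by simpa using h⟩
  · rw [UU_all] at h h'
    exact Prod.ext (pt_inj I fun n => (up (g n)).injective ((h n).1.trans (h' n).1.symm))
      (pt_inj I fun n => (up (g n)).injective ((h n).2.trans (h' n).2.symm))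

theorem ex_g {m l : ℕ} (h : ed I m l) : ∃ g, ∀ j, g ∈ UU I j (m, l) := by
  choose g hg using fun n => perm_ext univ (fun b : Bool => cond b (pt I m n) (pt I l n))
    (fun b => cond b 0 1) (by simp [h n, (h n).symm])
  exact ⟨g, (UU_all I _ _).2 fun n => ⟨hg n true trivial, hg n false trivial⟩⟩

variable {I}

theorem assemble {Y : Type} [TopologicalSpace Y] [PolishSpace Y] [MeasurableSpace Y]
    [BorelSpace Y] [Nonempty Y] (R : Y → I → I → Prop) (hR : ∀ i j, IsClopen {y | R y i j})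
    (tot : ∀ y i, ∃ j, R y i j ∨ R y j i)
    (tw : ∀ y i i', (∀ j, (R y i j ↔ R y i' j) ∧ (R y j i ↔ R y j i')) → i = i') :
    ∃ T : Y → ((ℕ → Bool) ≃ₜ (ℕ → Bool)),
      Measurable[_, borel _] (fun y => (T y : C(ℕ → Bool, ℕ → Bool))) ∧
      (∀ y x, Dense (range fun n : ℕ => (T y)^[n] x)) ∧
      (∀ y y', (∃ σ : I ≃ I, ∀ i j, R y i j ↔ R y' (σ i) (σ j)) ↔
        ∃ h : (ℕ → Bool) ≃ₜ (ℕ → Bool), ∀ c, h (T y c) = T y' (h c)) ∧
      ∀ y y', ¬ ∃ h : (ℕ → Bool) ≃ₜ (ℕ → Bool), ∀ c, h (T y c) = (T y').symm (h c) := by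
  obtain ⟨a, H⟩ := ex_hyp I
  obtain ⟨S, hS⟩ : ∃ S : Y → ℕ × ℕ → Prop, ∀ y z, S y z ↔ R y (cl I z.1) (cl I z.2) :=
    ⟨_, fun _ _ => Iff.rfl⟩
  obtain ⟨h, hm⟩ := param (X := fun y => XX a (UU I) (S y))
    (closed H.clopen fun z => by simpa only [hS] using hR _ _)
    (fun y => (ex_pt H.anti 0 1 1 True).imp fun _ h => h.1) fun y => perf H
  have s0 : ∀ y, ∃ g z, S y z ∧ ∀ i, g ∈ UU I i z := fun y => by
    obtain ⟨j, hj⟩ := tot y (cl I 0)
    obtain ⟨v, rfl, v1, -⟩ := ed2 I 0 0 j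
    rcases hj with hj | hj
    · exact (ex_g I (ed_symm I v1)).imp fun g hg => ⟨_, (hS _ _).2 hj, hg⟩
    · exact (ex_g I v1).imp fun g hg => ⟨_, (hS _ _).2 hj, hg⟩
  refine ⟨fun y => (h y).symm.trans (shh.trans (h y)),
    meas_cm _ (hm (sh 1) (sh_cont 1) fun y x hx => sh_mem hx 1), fun y x => ?_,
    fun y y' => ⟨?_, ?_⟩, fun y y' => ?_⟩
  · obtain ⟨x, rfl⟩ := (h y).surjective x
    refine ((h y).surjective.denseRange.dense_image (h y).continuous (fdense H x)).mono ?_
    rintro _ ⟨_, ⟨n, rfl⟩, rfl⟩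
    exact ⟨n, ((Semiconj.iterate_right (f := h y) (fun x => by simp; rfl) n) x).symm⟩
  · rintro ⟨σ, hσ⟩
    obtain ⟨π, k, h1, h2⟩ := lift I σ
    obtain ⟨Φ, hΦ⟩ := conj_of (a := a) (U := UU I) (R := S y) (R' := S y') (π.prodCongr π)
      (k⁻¹ : ∀ n, Sy n) (fun j z g => forall₂_congr fun i _ => by
        have e : ∀ m, up ((g * (k⁻¹ : ∀ n, Sy n)) i) (pt I (π m) i) = up (g i) (pt I m i) :=
          fun m => by
          rw [← h2]
          exact congrArg (up (g i)) ((k i).symm_apply_apply _)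
        simp only [Equiv.prodCongr_apply, Prod.map_fst, Prod.map_snd, e])
      fun z => by simp only [hS, Equiv.prodCongr_apply, Prod.map_fst, Prod.map_snd, h1, hσ]
    refine ⟨(h y).symm.trans (Φ.trans (h y')), fun c => ?_⟩
    simp only [Homeomorph.trans_apply, Homeomorph.symm_apply_apply]
    exact congrArg _ (hΦ _)
  · rintro ⟨φ, hφ⟩
    obtain ⟨k, k1, k2⟩ := rigid H ((h y).trans (φ.trans (h y').symm)) (fun m x => by
      simpa using all_m ((h y).trans (φ.trans (h y').symm)) 1 (fun x => by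
        have := congrArg (h y').symm (hφ (h y x))
        simp at this
        exact this) m x) (s0 y)
    refine recover (fun n => up (k n)) (tot y) (tot y') (tw y) (tw y') (fun m m' e r => ?_)
      fun m m' e r => ?_
    · obtain ⟨g, hg⟩ := ex_g I e
      obtain ⟨z, z1, z2⟩ := k1 g _ ((hS _ (m, m')).2 r) hg
      rw [UU_all] at hg z2
      exact ⟨z.1, z.2, (hS _ _).1 z1, fun n => (up (g n)).injective ((z2 n).1.trans (hg n).1.symm),
        fun n => (up (g n)).injective ((z2 n).2.trans (hg n).2.symm)⟩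
    · obtain ⟨g, hg⟩ := ex_g I e
      obtain ⟨z, z1, z2⟩ := k2 g _ ((hS _ (m, m')).2 r) hg
      rw [UU_all] at hg z2
      exact ⟨z.1, z.2, (hS _ _).1 z1, fun n => ((up (k n)).symm_apply_eq.1
        ((up (g n)).injective ((z2 n).1.trans (hg n).1.symm))).symm, fun n =>
          ((up (k n)).symm_apply_eq.1 ((up (g n)).injective ((z2 n).2.trans (hg n).2.symm))).symm⟩
  · rintro ⟨φ, hφ⟩
    have := noflip H ((h y).trans (φ.trans (h y').symm)) (fun m x => by
      simpa using all_m ((h y).trans (φ.trans (h y').symm)) (-1) (fun x => by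
        have := congrArg (h y').symm (hφ (h y x))
        simp at this
        exact this) m x) (s0 y)
      (fun n => Equiv.swap 0 1) fun n => Equiv.swap 1 (Fin.last _)
    have := congrArg (fun g => up (g 0) 0) this
    revert this
    decide

end Pool.Agent.H.MP_f7d718_lc
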