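import Mathlib
import Pool.Agent.H.MP_f7d718_lc.E
import Pool.Agent.H.MP_f7d718_lc.Defs

namespace Pool.Agent.H.MP_f7d718_lc

open Set Function Filter Topology TopologicalSpace MeasureTheory

theorem conj_iff (S T : Homeo) :
    Conj S T ↔ ∃ h : (ℕ → Bool) ≃ₜ (ℕ → Bool), ∀ c, h (S.h c) = T.h (h c) :=
  ⟨fun ⟨h, e⟩ => ⟨h.symm, fun c => by simp [e]⟩,
    fun ⟨h, e⟩ => ⟨h.symm, Homeomorph.ext fun c => by simp [← e]⟩⟩

/-- a twin-free coding -/
def rg (G : ℕ → ℕ → Bool) : ℕ × Bool → ℕ × Bool → Prop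
  | (i, false), (j, false) => G i j = true
  | (i, false), (j, true) => i = j
  | (_, true), _ => False

theorem rg_iff (G H : ℕ → ℕ → Bool) :
    Iso G H ↔ ∃ σ : ℕ × Bool ≃ ℕ × Bool, ∀ i j, rg G i j ↔ rg H (σ i) (σ j) := by
  constructor
  · rintro ⟨σ, h⟩
    refine ⟨σ.prodCongr (Equiv.refl _), ?_⟩
    rintro ⟨i, _ | _⟩ ⟨j, _ | _⟩ <;> simp [rg, h]
  · rintro ⟨σ, h⟩
    have k : ∀ {G H : ℕ → ℕ → Bool} {σ : ℕ × Bool ≃ ℕ × Bool},
        (∀ i j, rg G i j ↔ rg H (σ i) (σ j)) → ∀ i, σ (i, false) = ((σ (i, false)).1, false) :=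
      fun {G H σ} h i => by
      have := (h (i, false) (i, true)).1 rfl
      generalize σ (i, false) = u at this
      obtain ⟨u, _ | _⟩ := u
      · rfl
      · exact this.elim
    have k1 := k h
    have k2 := k (σ := σ.symm) (G := H) (H := G) fun i j => by simp [h]
    refine ⟨⟨fun i => (σ (i, false)).1, fun i => (σ.symm (i, false)).1, fun i => by
      simp [← k1], fun i => by simp [← k2]⟩, fun i j => Bool.eq_iff_iff.2 ?_⟩
    have := h (i, false) (j, false)
    rwa [k1 i, k1 j] at this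

theorem hard : ∃ f : (ℕ → ℕ → Bool) → Homeo, @Measurable _ _ _ (borel _) f ∧
    (∀ G, Minimal (f G)) ∧ ∀ G H, Iso G H ↔ Conj (f G) (f H) := by
  haveI : PolishSpace (ℕ → ℕ → Bool) := ⟨⟩
  obtain ⟨T, t1, t2, t3, -⟩ := assemble rg (by
    rintro ⟨i, _ | _⟩ ⟨j, _ | _⟩
    · exact (isClopen_discrete {true}).preimage (f := fun G : ℕ → ℕ → Bool => G i j) (by fun_prop)
    all_goals exact ⟨isClosed_const, isOpen_const⟩)
    (by
      rintro G ⟨i, _ | _⟩
      · exact ⟨(i, true), Or.inl rfl⟩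
      · exact ⟨(i, false), Or.inr rfl⟩)
    (by
      rintro G ⟨i, _ | _⟩ ⟨j, _ | _⟩ h
      · rw [show j = i from (h (i, true)).1.1 rfl]
      · exact ((h (i, true)).1.1 rfl).elim
      · exact ((h (j, true)).1.2 rfl).elim
      · rw [show i = j from (h (i, false)).2.1 rfl])
  refine ⟨T, ?_, fun G x => (t2 G x).mono ?_, fun G H => by rw [rg_iff, conj_iff]; exact t3 G H⟩
  · have e : borel Homeo = (borel _).comap fun T : Homeo => (T.h : C(ℕ → Bool, ℕ → Bool)) :=
      borel_comap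
    rw [e]
    exact measurable_comap_iff.2 t1
  · rintro _ ⟨n, rfl⟩
    refine ⟨n, ?_⟩
    simp only [zpow_natCast]
    induction n with
    | zero => rfl
    | succ n ih => rw [pow_succ', iterate_succ_apply', ← ih]; rfl

theorem sep {x y : ℕ → Bool} (h : ∀ A : Clopens (ℕ → Bool), x ∈ A ↔ y ∈ A) : x = y :=
  funext fun n => (h ⟨_, (isClopen_discrete {y n}).preimage (continuous_apply n)⟩).2 rfl

theorem stone (τ : Clopens (ℕ → Bool) ≃o Clopens (ℕ → Bool)) :
    ∃ h : (ℕ → Bool) → ℕ → Bool, Continuous h ∧ ∀ x A, h x ∈ τ A ↔ x ∈ A := by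
  have : ∀ x, ∃ y, ∀ A, y ∈ τ A ↔ x ∈ A := fun x => by
    haveI : Nonempty {A : Clopens (ℕ → Bool) // x ∈ A} := ⟨⟨⊤, trivial⟩⟩
    obtain ⟨y, hy⟩ := IsCompact.nonempty_iInter_of_directed_nonempty_isCompact_isClosed
      (fun A : {A : Clopens (ℕ → Bool) // x ∈ A} => (τ A.1 : Set (ℕ → Bool)))
      (fun A B => ⟨⟨A.1 ⊓ B.1, A.2, B.2⟩, τ.monotone inf_le_left, τ.monotone inf_le_right⟩)
      (fun A => nonempty_iff_ne_empty.2 fun e => by
        have := A.2
        rwa [τ.injective ((Clopens.ext e).trans τ.map_bot.symm : τ A.1 = τ ⊥)] at this)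
      (fun A => (τ A.1).isClosed.isCompact) fun A => (τ A.1).isClosed
    refine ⟨y, fun A => ⟨fun h => by_contra fun hn => ?_, fun h => mem_iInter.1 hy ⟨A, h⟩⟩⟩
    have := mem_iInter.1 hy ⟨Aᶜ, hn⟩
    rw [map_compl' τ] at this
    exact this h
  choose h hh using this
  refine ⟨h, isTopologicalBasis_isClopen.continuous_iff.2 fun s hs => ?_, hh⟩
  convert (τ.symm ⟨s, hs⟩).isClopen.isOpen using 1
  ext x
  rw [SetLike.mem_coe, ← hh, τ.apply_symm_apply]
  rfl

/-- preimages of clopen sets -/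
def pre (T : (ℕ → Bool) ≃ₜ (ℕ → Bool)) : Clopens (ℕ → Bool) ≃o Clopens (ℕ → Bool) where
  toFun A := ⟨T ⁻¹' A, A.isClopen.preimage T.continuous⟩
  invFun A := ⟨T.symm ⁻¹' A, A.isClopen.preimage T.symm.continuous⟩
  left_inv A := Clopens.ext (by ext; simp)
  right_inv A := Clopens.ext (by ext; simp)
  map_rel_iff' := T.surjective.preimage_subset_preimage_iff

/-- the coding of a homeomorphism -/
def rt (T : Homeo) : Clopens (ℕ → Bool) × Bool → Clopens (ℕ → Bool) × Bool → Prop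
  | (A, false), (B, false) => A ≤ B
  | (A, false), (B, true) => A = B
  | (A, true), (B, false) => pre T.h A = B
  | (_, true), (_, true) => False

theorem rt_iff (S T : Homeo) : Conj S T ↔ ∃ σ : Clopens (ℕ → Bool) × Bool ≃
    Clopens (ℕ → Bool) × Bool, ∀ i j, rt S i j ↔ rt T (σ i) (σ j) := by
  rw [conj_iff]
  constructor
  · rintro ⟨h, e⟩
    refine ⟨(pre h).symm.toEquiv.prodCongr (Equiv.refl _), ?_⟩
    rintro ⟨A, _ | _⟩ ⟨B, _ | _⟩ <;> simp [rt]
    rw [show pre T.h ((pre h).symm A) = (pre h).symm (pre S.h A) from Clopens.ext (by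
      ext x
      obtain ⟨x, rfl⟩ := h.surjective x
      simp [pre, ← e]), (pre h).symm.apply_eq_iff_eq]
  · rintro ⟨σ, h⟩
    have k : ∀ {S T : Homeo} {σ : Clopens (ℕ → Bool) × Bool ≃ Clopens (ℕ → Bool) × Bool},
        (∀ i j, rt S i j ↔ rt T (σ i) (σ j)) → ∀ i, σ (i, false) = ((σ (i, false)).1, false) :=
      fun {S T σ} h i => by
      have := (h (i, false) (i, false)).1 le_rfl
      generalize σ (i, false) = u at this
      obtain ⟨u, _ | _⟩ := u
      · rfl
      · exact this.elim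
    have k1 := k h
    have k2 := k (σ := σ.symm) (S := T) (T := S) fun i j => by simp [h]
    obtain ⟨τ, hτ⟩ : ∃ τ : Clopens (ℕ → Bool) ≃o Clopens (ℕ → Bool),
        ∀ A, σ (A, false) = (τ A, false) :=
      ⟨⟨⟨fun i => (σ (i, false)).1, fun i => (σ.symm (i, false)).1, fun i => by
        simp [← k1], fun i => by simp [← k2]⟩, fun {A B} => by
          have := h (A, false) (B, false)
          rw [k1 A, k1 B] at this
          exact this.symm⟩, k1⟩
    have k3 : ∀ A, σ (A, true) = (τ A, true) := fun A => by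
      have h1 := (h (A, false) (A, true)).1 rfl
      have h2 := (h (A, true) (A, true)).not.1 id
      rw [hτ] at h1
      generalize σ (A, true) = u at h1 h2
      obtain ⟨u, _ | _⟩ := u
      · exact (h2 le_rfl).elim
      · rw [show τ A = u from h1]
    have k4 : ∀ A, pre T.h (τ A) = τ (pre S.h A) := fun A => by
      have := (h (A, true) (_, false)).1 rfl
      rwa [k3, hτ] at this
    obtain ⟨f, f1, f2⟩ := stone τ
    obtain ⟨g, g1, g2⟩ := stone τ.symm
    refine ⟨⟨⟨f, g, fun x => sep fun A => ?_, fun x => sep fun A => ?_⟩, f1, g1⟩,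
      fun c => sep fun A => ?_⟩
    · rw [← f2 x, ← g2 (f x), τ.symm_apply_apply]
    · rw [← g2 x, ← f2 (g x), τ.apply_symm_apply]
    · obtain ⟨A, rfl⟩ := τ.surjective A
      exact (f2 _ _).trans (Iff.trans (f2 c (pre S.h A)).symm (k4 A ▸ Iff.rfl))

theorem easy : ∃ g : Homeo → (ℕ → ℕ → Bool), @Measurable _ _ (borel _) _ g ∧
    ∀ S T, Conj S T ↔ Iso (g S) (g T) := by
  classical
  haveI := Clopens.countable_iff_secondCountable.2
    (inferInstance : SecondCountableTopology (ℕ → Bool))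
  haveI : Infinite (Clopens (ℕ → Bool)) := Infinite.of_injective
    (fun n : ℕ => ⟨_, (isClopen_discrete {true}).preimage (continuous_apply n)⟩) fun n m h => by
      have := (SetLike.ext_iff.1 h fun k => decide (k = n)).1 (by simp)
      exact (by simpa using this : m = n).symm
  obtain ⟨e⟩ : Nonempty (ℕ ≃ Clopens (ℕ → Bool) × Bool) := nonempty_equiv_of_countable
  letI : MeasurableSpace Homeo := borel _
  haveI : BorelSpace Homeo := ⟨rfl⟩
  refine ⟨fun T i j => decide (rt T (e i) (e j)), measurable_pi_lambda _ fun i =>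
    measurable_pi_lambda _ fun j => measurable_to_bool ?_, fun S T => ?_⟩
  · simp only [preimage, mem_singleton_iff, decide_eq_true_iff]
    generalize e i = u
    generalize e j = v
    obtain ⟨A, _ | _⟩ := u <;> obtain ⟨B, _ | _⟩ := v
    any_goals exact MeasurableSet.const _
    have o := ((ContinuousMap.isOpen_setOfPred_mapsTo B.isClosed.isCompact A.isClopen.isOpen).inter
      (ContinuousMap.isOpen_setOfPred_mapsTo Bᶜ.isClosed.isCompact Aᶜ.isClopen.isOpen)).preimage
      (continuous_induced_dom (f := fun T : Homeo => (T.h : C(ℕ → Bool, ℕ → Bool))))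
    convert o.measurableSet using 1
    ext T
    exact ⟨fun h => by rw [← show pre T.h A = B from h]; exact ⟨fun _ h => h, fun _ h => h⟩,
      fun h => Clopens.ext (Subset.antisymm (fun x hx => by_contra fun hn => h.2 hn hx) h.1)⟩
  · rw [rt_iff]
    exact ⟨fun ⟨σ, h⟩ => ⟨e.trans (σ.trans e.symm), fun i j => by simp [h]⟩,
      fun ⟨σ, h⟩ => ⟨e.symm.trans (σ.trans e), fun i j => by
        simpa using h (e.symm i) (e.symm j)⟩⟩

theorem bired (𝒞 : Homeo → Prop) (h : ∀ T, Minimal T → 𝒞 T) : BiRed 𝒞 := by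
  obtain ⟨f, f1, f2, f3⟩ := hard
  obtain ⟨g, g1, g2⟩ := easy
  letI : MeasurableSpace Homeo := borel _
  haveI : BorelSpace Homeo := ⟨rfl⟩
  have e : borel {T // 𝒞 T} = Subtype.instMeasurableSpace :=
    (Subtype.borelSpace {T | 𝒞 T}).measurable_eq.symm
  rw [BiRed, e]
  exact ⟨⟨fun G => ⟨f G, h _ (f2 G)⟩, f1.subtype_mk, f3⟩,
    fun T => g T.1, g1.comp measurable_subtype_coe, fun S T => g2 _ _⟩

end Pool.Agent.H.MP_f7d718_lc
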