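import Mathlib
import Pool.Agent.H.MP_f7d718_lc.E
import Pool.Agent.H.MP_78c86a_lc.C

namespace Pool.Agent.H.MP_f7d718_lc

open Set Function Filter Topology TopologicalSpace MeasureTheory Sum Pool.Agent.H.MP_86dbc5_an
open Finsupp (single)

/-- torsors over a tree -/
def rc (C : List ℕ → Prop) (ε : ℤ) :
    (ℕ × (List ℕ →₀ ℤ)) ⊕ ℕ → (ℕ × (List ℕ →₀ ℤ)) ⊕ ℕ → Prop
  | inr r, inr r' => r' = r + 1
  | inr _, inl _ => False
  | inl u, inl v => u = v ∨ (u.1 = v.1 + 1 ∧ v.2 = u.2.mapDomain List.tail)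
  | inl _, inr 0 => False
  | inl u, inr 1 => u = (0, single [] ε)
  | inl u, inr (n + 2) => (¬ (Denumerable.ofNat (List ℕ) n = [] ∨ C (Denumerable.ofNat (List ℕ) n))
      ∨ (Denumerable.ofNat (List ℕ) n).length ≠ u.1) ∧ u.2 (Denumerable.ofNat (List ℕ) n) ≠ 0

theorem rc_fwd {C : List ℕ → Prop} {b : ℕ → ℕ} (hb : ∀ n, C (nd b (n + 1))) :
    ∃ σ : (ℕ × (List ℕ →₀ ℤ)) ⊕ ℕ ≃ (ℕ × (List ℕ →₀ ℤ)) ⊕ ℕ,
      ∀ i j, rc C 0 i j ↔ rc C 1 (σ i) (σ j) := by
  refine ⟨(Equiv.prodCongrRight fun k => Equiv.addRight (single (nd b k) 1)).sumCongr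
    (Equiv.refl _), ?_⟩
  rintro (⟨k, u⟩ | r) (⟨l, v⟩ | _ | _ | r') <;>
    simp only [rc, Equiv.sumCongr_apply, Sum.map_inl, Sum.map_inr, Equiv.refl_apply,
      Equiv.prodCongrRight_apply, Equiv.coe_addRight, Prod.mk.injEq]
  · refine or_congr (and_congr_right fun h => by simp [h]) (and_congr_right fun h => ?_)
    simp [h, Finsupp.mapDomain_add, nd]
  · exact and_congr_right fun h => by simp [h, nd]
  · refine and_congr_right fun h => ?_
    generalize Denumerable.ofNat (List ℕ) r' = s at h ⊢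
    have : nd b k ≠ s := by
      rintro rfl
      cases k <;> simp [hb, nd_length] at h
      exact h.1 rfl
    simp [this]

theorem rc_bwd {C : List ℕ → Prop} {σ : (ℕ × (List ℕ →₀ ℤ)) ⊕ ℕ ≃ (ℕ × (List ℕ →₀ ℤ)) ⊕ ℕ}
    (h : ∀ i j, rc C 0 i j ↔ rc C 1 (σ i) (σ j)) :
    ∃ (t : ℕ → List ℕ) (i : ℕ → ℕ), ∀ n, t (n + 1) = i n :: t n ∧ C (t (n + 1)) := by
  have h1 : ∀ u, ∃ v, σ (inl u) = inl v := fun u => by
    have := (h (inl u) (inl u)).1 (Or.inl rfl)
    generalize σ (inl u) = w at this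
    rcases w with v | r
    · exact ⟨v, rfl⟩
    · simp [rc] at this
  have h2 : ∀ r, ∃ v, σ (inr r) = inr v := fun r => by
    have := (h (inr r) (inr r)).not.1 (by simp [rc])
    generalize σ (inr r) = w at this
    rcases w with v | r
    · exact absurd (Or.inl rfl) this
    · exact ⟨r, rfl⟩
  have h3 : ∀ r, σ (inr r) = inr r := fun r => by
    induction r with
    | zero =>
      obtain ⟨_ | v, hv⟩ := h2 0
      · exact hv
      · obtain ⟨w, hw⟩ := σ.surjective (inr v)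
        have := (h w (inr 0)).2 (by rw [hw, hv]; rfl)
        cases w <;> simp [rc] at this
    | succ r ih =>
      obtain ⟨v, hv⟩ := h2 (r + 1)
      have := (h (inr r) (inr (r + 1))).1 rfl
      rw [ih, hv] at this
      rw [hv, show v = r + 1 from this]
  choose τ hτ using h1
  have h4 : τ (0, 0) = (0, single [] 1) := by
    have := (h (inl (0, 0)) (inr 1)).1 (by simp [rc])
    rwa [hτ, h3] at this
  have h5 : ∀ k, (τ (k + 1, 0)).1 = (τ (k, 0)).1 + 1 ∧
      (τ (k, 0)).2 = (τ (k + 1, 0)).2.mapDomain List.tail := fun k => by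
    have := (h (inl (k + 1, 0)) (inl (k, 0))).1 (by simp [rc])
    rw [hτ, hτ] at this
    refine this.resolve_left fun e => ?_
    simpa using σ.injective ((hτ _).trans ((congrArg inl e).trans (hτ _).symm))
  have h6 : ∀ k s, (τ (k, 0)).2 s ≠ 0 → (s = [] ∨ C s) ∧ s.length = (τ (k, 0)).1 :=
    fun k s hs => by
    have := (h (inl (k, 0)) (inr (Encodable.encode s + 2))).not.1 (by simp [rc])
    rw [hτ, h3] at this
    simp only [rc, Denumerable.ofNat_encode] at this
    by_contra hn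
    exact this ⟨by tauto, hs⟩
  have : ∀ k (s : {s // (τ (k, 0)).2 s ≠ 0}), ∃ t : {s // (τ (k + 1, 0)).2 s ≠ 0},
      ∃ i, t.1 = i :: s.1 ∧ C t.1 := fun k ⟨s, hs⟩ => by
    classical
    have := Finsupp.mem_support_iff.2 hs
    rw [(h5 k).2] at this
    obtain ⟨t, a, rfl⟩ := Finset.mem_image.1 (Finsupp.mapDomain_support this)
    obtain ⟨h7, h8⟩ := h6 _ _ (Finsupp.mem_support_iff.1 a)
    rw [(h5 k).1] at h8
    obtain _ | ⟨i, t⟩ := t
    · simp at h8
    · exact ⟨⟨_, Finsupp.mem_support_iff.1 a⟩, i, rfl, by simpa using h7⟩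
  choose nx i hn using this
  let s : ∀ k, {s // (τ (k, 0)).2 s ≠ 0} := fun k => Nat.rec ⟨[], by simp [h4]⟩ nx k
  exact ⟨fun k => (s k).1, fun k => i k (s k), fun k => hn k (s k)⟩

theorem flip : ∃ (T : (ℕ → ℕ) × Bool → ((ℕ → Bool) ≃ₜ (ℕ → Bool))) (B : Set (ℕ → ℕ)),
    ¬ MeasurableSet B ∧ Measurable[_, borel _] (fun y => (T y : C(ℕ → Bool, ℕ → Bool))) ∧
      (∀ y x, Dense (range fun n : ℕ => (T y)^[n] x)) ∧
      (∀ y, y ∈ B ↔ ∃ h : (ℕ → Bool) ≃ₜ (ℕ → Bool),
        ∀ c, h (T (y, false) c) = T (y, true) (h c)) ∧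
      ∀ y y', ¬ ∃ h : (ℕ → Bool) ≃ₜ (ℕ → Bool), ∀ c, h (T y c) = (T y').symm (h c) := by
  obtain ⟨S, hS, hS2⟩ := MP_78c86a_lc.nonborel
  have c : Continuous fun (x : ℕ → Bool) n => (x n).toNat := continuous_pi fun n =>
    (continuous_of_discreteTopology (f := Bool.toNat)).comp (continuous_apply n)
  have i : Injective fun (x : ℕ → Bool) n => (x n).toNat := fun x y h => funext fun n => by
    have : (x n).toNat = (y n).toNat := congrFun h n
    revert this
    cases x n <;> cases y n <;> simp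
  obtain ⟨C, c1, c2, c3⟩ := tree (hS.image_of_continuous c)
  haveI : PolishSpace ((ℕ → ℕ) × Bool) := ⟨⟩
  obtain ⟨T, t1, t2, t3, t4⟩ := assemble
    (fun y : (ℕ → ℕ) × Bool => rc (C y.1) (cond y.2 1 0)) (by
      rintro (u | r) (v | _ | _ | r')
      any_goals exact ⟨isClosed_const, isOpen_const⟩
      · exact (isClopen_discrete {b | u = (0, single [] (cond b 1 0))}).preimage continuous_snd
      · simpa only [eq_iff_iff, iff_true, comp_apply, rc] using
          (((c1 (Denumerable.ofNat (List ℕ) r')).comp_continuous continuous_fst).comp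
          fun p => (¬ (Denumerable.ofNat (List ℕ) r' = [] ∨ p) ∨
            (Denumerable.ofNat (List ℕ) r').length ≠ u.1) ∧
            u.2 (Denumerable.ofNat (List ℕ) r') ≠ 0).isClopen_fiber True)
    (by
      rintro y (u | r)
      · exact ⟨inl u, Or.inl (Or.inl rfl)⟩
      · exact ⟨inr (r + 1), Or.inl rfl⟩)
    (by
      rintro y (u | r) (v | r') h
      · have h1 := (h (inl u)).1.1 (Or.inl rfl)
        have h2 := (h (inl v)).1.2 (Or.inl rfl)
        rcases h1 with rfl | h1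
        · rfl
        · rcases h2 with rfl | h2
          · rfl
          · omega
      · exact ((h (inl u)).1.1 (Or.inl rfl)).elim
      · exact ((h (inl v)).1.2 (Or.inl rfl)).elim
      · rw [Nat.succ_injective ((h (inr (r + 1))).1.1 rfl)])
  refine ⟨T, (fun (x : ℕ → Bool) n => (x n).toNat) '' S, fun h => hS2 ?_, t1, t2, fun y => ?_, t4⟩
  · simpa only [preimage_image_eq _ i] using c.measurable h
  · rw [← t3]
    refine ⟨fun hy => ?_, fun ⟨σ, h⟩ => ?_⟩
    · obtain ⟨b, hb⟩ := c2 y hy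
      exact rc_fwd hb
    · obtain ⟨t, i, ht⟩ := rc_bwd h
      exact c3 y t i ht

end Pool.Agent.H.MP_f7d718_lc
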